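import Pool.Agent.X280.HY.Num

/-! The ranges of primes. -/

set_option autoImplicit false

namespace Pool.Agent.X280.HY

open Finset MeasureTheory
open scoped ENNReal

/-- the end points of the ranges -/
noncomputable def yy (X : ℝ) (m j : ℕ) : ℝ := X ^ ((2 : ℝ) ^ j / (2 : ℝ) ^ m)

/-- the starting points of the ranges -/
noncomputable def lo (X : ℝ) (m j : ℕ) : ℝ := if j = 0 then ((2 : ℝ) ^ m) ^ 2 else yy X m (j - 1)

/-- the primes up to `X` -/
noncomputable def PX (X : ℝ) : Finset ℕ := (Finset.range (⌊X⌋₊ + 1)).filter Nat.Prime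

open scoped Classical in
/-- the ranges -/
noncomputable def RG (X : ℝ) (m j : ℕ) : Finset ℕ :=
  (PX X).filter fun p => lo X m j < (p : ℝ) ∧ (p : ℝ) ≤ yy X m j

theorem mem_PX {X : ℝ} (hX : 0 ≤ X) {p : ℕ} : p ∈ PX X ↔ p.Prime ∧ (p : ℝ) ≤ X := by
  unfold PX
  rw [Finset.mem_filter, Finset.mem_range, Nat.lt_succ_iff, Nat.le_floor_iff hX, and_comm]

theorem RG_prime {X : ℝ} {m j : ℕ} : ∀ p ∈ RG X m j, p.Prime := fun p hp => by
  classical
  unfold RG PX at hp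
  exact (Finset.mem_filter.1 (Finset.mem_filter.1 hp).1).2

theorem RG_lt {X : ℝ} {m j : ℕ} : ∀ p ∈ RG X m j, lo X m j < (p : ℝ) := fun p hp => by
  classical
  unfold RG at hp
  exact (Finset.mem_filter.1 hp).2.1

theorem RG_le {X : ℝ} {m j : ℕ} : ∀ p ∈ RG X m j, (p : ℝ) ≤ yy X m j := fun p hp => by
  classical
  unfold RG at hp
  exact (Finset.mem_filter.1 hp).2.2

theorem yy_last {X : ℝ} (m : ℕ) : yy X m m = X := by
  unfold yy
  rw [div_self (by positivity), Real.rpow_one]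

theorem yy_pow {X : ℝ} (hX : 0 ≤ X) {m j : ℕ} (hj : j ≤ m) : yy X m j ^ (2 ^ (m - j)) = X := by
  unfold yy
  rw [← Real.rpow_natCast, ← Real.rpow_mul hX]
  have : (2 : ℝ) ^ j / 2 ^ m * ((2 ^ (m - j) : ℕ) : ℝ) = 1 := by
    push_cast
    rw [div_mul_eq_mul_div, ← pow_add, Nat.add_sub_cancel' hj, div_self (by positivity)]
  rw [this, Real.rpow_one]

theorem yy_mono {X : ℝ} (hX : 1 ≤ X) {m i j : ℕ} (hij : i ≤ j) : yy X m i ≤ yy X m j := by
  unfold yy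
  refine Real.rpow_le_rpow_of_exponent_le hX ?_
  have : (2 : ℝ) ^ i ≤ 2 ^ j := pow_le_pow_right₀ (by norm_num) hij
  gcongr

/-- The telescoping sum. -/
theorem telescope {X : ℝ} (hX : 1 ≤ X) {m : ℕ} (h0 : ((2 : ℝ) ^ m) ^ 2 ≤ yy X m 0) (f : ℕ → ℂ) :
    ∑ p ∈ PX X, f p = ∑ p ∈ (PX X).filter (fun p : ℕ => (p : ℝ) ≤ ((2 : ℝ) ^ m) ^ 2), f p +
      ∑ j ∈ range (m + 1), ∑ p ∈ RG X m j, f p := by
  classical
  set F : ℝ → ℂ := fun y => ∑ p ∈ (PX X).filter (fun p : ℕ => (p : ℝ) ≤ y), f p with hF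
  have hdiff : ∀ a b : ℝ, a ≤ b → F b = F a +
      ∑ p ∈ (PX X).filter (fun p : ℕ => a < (p : ℝ) ∧ (p : ℝ) ≤ b), f p := by
    intro a b hab
    simp only [hF]
    rw [← Finset.sum_union]
    · refine Finset.sum_congr ?_ fun _ _ => rfl
      ext p
      simp only [Finset.mem_union, Finset.mem_filter]
      constructor
      · rintro ⟨h1, h2⟩
        rcases le_or_gt (p : ℝ) a with h | h
        · exact Or.inl ⟨h1, h⟩
        · exact Or.inr ⟨h1, h, h2⟩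
      · rintro (⟨h1, h2⟩ | ⟨h1, h2, h3⟩)
        · exact ⟨h1, h2.trans hab⟩
        · exact ⟨h1, h3⟩
    · rw [Finset.disjoint_left]
      intro p h1 h2
      exact absurd (Finset.mem_filter.1 h1).2 (not_le.2 (Finset.mem_filter.1 h2).2.1)
  have hind : ∀ j, F (yy X m j) = F (((2 : ℝ) ^ m) ^ 2) +
      ∑ i ∈ range (j + 1), ∑ p ∈ RG X m i, f p := by
    intro j
    induction j with
    | zero =>
      rw [hdiff _ _ h0]
      simp only [zero_add, Finset.sum_range_one]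
      unfold RG lo
      rw [if_pos rfl]
    | succ j ih =>
      rw [Finset.sum_range_succ, hdiff (yy X m j) (yy X m (j + 1)) (yy_mono hX (by omega)), ih,
        add_assoc]
      congr 2
  have h1 := hind m
  rw [yy_last] at h1
  have h2 : F X = ∑ p ∈ PX X, f p := by
    simp only [hF]
    refine Finset.sum_congr ?_ fun _ _ => rfl
    refine Finset.filter_true_of_mem fun p hp => ?_
    exact ((mem_PX (by linarith)).1 hp).2
  rw [← h2, h1]

theorem fact_le (k : ℕ) : ((k.factorial : ℕ) : ℝ) ≤ (k : ℝ) ^ k := by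
  exact_mod_cast Nat.factorial_le_pow k

theorem le_exp_nat (k : ℕ) : (k : ℝ) ≤ Real.exp k := by
  have := Real.add_one_le_exp (k : ℝ)
  linarith

theorem exp_neg_two (k : ℕ) : (k : ℝ) * Real.exp (-2) ^ k ≤ Real.exp (-(k : ℝ)) := by
  rw [← Real.exp_nat_mul]
  have h1 := le_exp_nat k
  calc (k : ℝ) * Real.exp (k * -2) ≤ Real.exp k * Real.exp (k * -2) := by gcongr
    _ = _ := by
        rw [← Real.exp_add]
        congr 1
        ring

/-- the measure of the exceptional set of the first range -/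
theorem meas_zero {k : ℕ} (hk : 1 ≤ k) {v : ℝ} (hv0 : 0 ≤ v) (hv : v ≤ Real.exp (-2) / k) :
    5 * (k : ℝ) * (k.factorial * v ^ k) ≤ 5 * Real.exp (-(k : ℝ)) := by
  have hk0 : (0 : ℝ) < k := by exact_mod_cast hk
  have h1 : (k.factorial : ℝ) * v ^ k ≤ Real.exp (-2) ^ k := by
    calc (k.factorial : ℝ) * v ^ k ≤ (k : ℝ) ^ k * (Real.exp (-2) / k) ^ k :=
          mul_le_mul (fact_le k) (pow_le_pow_left₀ hv0 hv _) (by positivity) (by positivity)
      _ = _ := by rw [← mul_pow]; congr 1; field_simp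
  have h2 := exp_neg_two k
  calc 5 * (k : ℝ) * (k.factorial * v ^ k) ≤ 5 * (k : ℝ) * Real.exp (-2) ^ k := by gcongr
    _ = 5 * ((k : ℝ) * Real.exp (-2) ^ k) := by ring
    _ ≤ _ := by gcongr

/-- the measures of the exceptional sets of the other ranges -/
theorem meas_pos {X : ℝ} (hX : 1 ≤ X) {m j : ℕ} (hj : 1 ≤ j) (hjm : j ≤ m)
    (HX : ((2 : ℝ) ^ m) ^ 2 * ((2 : ℝ) ^ m) ^ (3 * 2 ^ m) * Real.exp ((2 : ℝ) ^ m) ≤ X ^ (1 / 4 : ℝ))
    {v : ℝ} (hv0 : 0 ≤ v) (hv : v ≤ 4 ^ j * yy X m (j - 1) ^ (-(1 / 2) : ℝ)) :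
    5 * ((2 ^ (m - j) : ℕ) : ℝ) * (((2 ^ (m - j)).factorial : ℕ) * v ^ (2 ^ (m - j))) ≤
      5 * Real.exp (-(2 : ℝ) ^ m) * ((2 : ℝ) ^ m)⁻¹ := by
  set k : ℕ := 2 ^ m with hk
  set kj : ℕ := 2 ^ (m - j) with hkj
  have hkR : (k : ℝ) = (2 : ℝ) ^ m := by rw [hk]; push_cast; rfl
  rw [← hkR] at HX ⊢
  have hkj1 : 1 ≤ kj := Nat.one_le_two_pow
  have hkjk : kj ≤ k := Nat.pow_le_pow_right (by norm_num) (Nat.sub_le m j)
  have hk1 : 1 ≤ k := hkj1.trans hkjk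
  have hk0 : (0 : ℝ) < k := by exact_mod_cast hk1
  have hk1R : (1 : ℝ) ≤ k := by exact_mod_cast hk1
  have hkjR : (kj : ℝ) ≤ k := by exact_mod_cast hkjk
  have hX0 : 0 < X := by linarith
  have h1 : (yy X m (j - 1) ^ (-(1 / 2) : ℝ)) ^ kj = X ^ (-(1 / 4) : ℝ) := by
    unfold yy
    rw [← Real.rpow_natCast, ← Real.rpow_mul hX0.le, ← Real.rpow_mul hX0.le]
    congr 1
    obtain ⟨i, rfl⟩ : ∃ i, j = i + 1 := ⟨j - 1, by omega⟩
    obtain ⟨l, rfl⟩ : ∃ l, m = i + 1 + l := ⟨m - (i + 1), by omega⟩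
    rw [hkj]
    have e1 : i + 1 + l - (i + 1) = l := by omega
    rw [e1, Nat.add_sub_cancel]
    push_cast
    rw [pow_add, pow_succ]
    field_simp
    ring
  have h2 : v ^ kj ≤ (4 ^ j) ^ kj * X ^ (-(1 / 4) : ℝ) := by
    rw [← h1, ← mul_pow]
    exact pow_le_pow_left₀ hv0 hv _
  have h3 : ((4 : ℝ) ^ j) ^ kj ≤ (k : ℝ) ^ (2 * k) := by
    have e1 : (4 : ℝ) ^ j ≤ (k : ℝ) ^ 2 := by
      rw [hkR, ← pow_mul, show (4 : ℝ) = 2 ^ 2 by norm_num, ← pow_mul]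
      exact pow_le_pow_right₀ (by norm_num) (by omega)
    have e2 : (1 : ℝ) ≤ (k : ℝ) ^ 2 := one_le_pow₀ hk1R
    calc ((4 : ℝ) ^ j) ^ kj ≤ ((k : ℝ) ^ 2) ^ kj := pow_le_pow_left₀ (by positivity) e1 _
      _ ≤ ((k : ℝ) ^ 2) ^ k := pow_le_pow_right₀ e2 hkjk
      _ = _ := by rw [← pow_mul]
  have h4 : ((kj.factorial : ℕ) : ℝ) ≤ (k : ℝ) ^ k := by
    refine (fact_le kj).trans ((pow_le_pow_left₀ (by positivity) hkjR _).trans ?_)
    exact pow_le_pow_right₀ hk1R hkjk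
  have hXq : 0 < X ^ (1 / 4 : ℝ) := by positivity
  have h5 : X ^ (-(1 / 4) : ℝ) ≤ ((k : ℝ) ^ 2 * (k : ℝ) ^ (3 * k) * Real.exp k)⁻¹ := by
    rw [Real.rpow_neg hX0.le]
    exact inv_anti₀ (by positivity) HX
  calc 5 * (kj : ℝ) * (((kj.factorial : ℕ) : ℝ) * v ^ kj)
      ≤ 5 * (k : ℝ) * ((k : ℝ) ^ k * ((k : ℝ) ^ (2 * k) *
        ((k : ℝ) ^ 2 * (k : ℝ) ^ (3 * k) * Real.exp k)⁻¹)) := by
        have h6 : v ^ kj ≤ (k : ℝ) ^ (2 * k) *
            ((k : ℝ) ^ 2 * (k : ℝ) ^ (3 * k) * Real.exp k)⁻¹ :=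
          h2.trans (mul_le_mul h3 h5 (by positivity) (by positivity))
        gcongr
    _ = 5 * Real.exp (-(k : ℝ)) * ((k : ℝ))⁻¹ := by
        rw [Real.exp_neg]
        have e1 : (k : ℝ) ^ (3 * k) = (k : ℝ) ^ k * (k : ℝ) ^ (2 * k) := by
          rw [← pow_add]; congr 1; ring
        rw [e1]
        field_simp

section
variable {Ω : Type} [MeasurableSpace Ω] {μ : Measure Ω} {χ : ℕ → Ω → ℂ} {X D : ℝ}

/-- **All ranges.** -/
theorem comb [SFinite μ] (h : QO μ χ X D) (hX : 1 ≤ X) {m : ℕ}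
    (HX : ((2 : ℝ) ^ m) ^ 2 * ((2 : ℝ) ^ m) ^ (3 * 2 ^ m) * Real.exp ((2 : ℝ) ^ m) ≤ X ^ (1 / 4 : ℝ))
    (h0 : ((2 : ℝ) ^ m) ^ 2 ≤ yy X m 0) {r : ℝ} (hr : 0 < r) {b : ℕ → ℂ}
    (hb : ∀ p : ℕ, p.Prime → ‖b p‖ ≤ r / p) :
    ∃ E : Set Ω, MeasurableSet E ∧ μ E ≤ ENNReal.ofReal (10 * D * Real.exp (-(2 : ℝ) ^ m)) ∧
      ∀ ω, ω ∉ E → ∀ x : ℝ, 0 ≤ x → x ≤ 1 → ‖SP χ b (PX X) x ω‖ ≤
        r * (Real.log (1 + 2 * Real.log ((2 : ℝ) ^ m) + 1) + 8 * Real.log 4) +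
          2 * (Real.exp 1 * C0) * r := by
  classical
  have hC0 := one_le_C0
  set A : ℕ → ℝ := fun j => (Real.exp 1 * C0) * r * (1 / 2) ^ j with hA
  have hA0 : ∀ j, 0 < A j := fun j => by simp only [hA]; positivity
  have hlo : ∀ j, 1 ≤ lo X m j := fun j => by
    unfold lo
    split_ifs
    · exact one_le_pow₀ (one_le_pow₀ (by norm_num))
    · exact Real.one_le_rpow hX (by positivity)
  have hx : ∀ j ∈ range (m + 1), ∀ p ∈ RG X m j, (p : ℝ) ^ (2 ^ (m - j)) ≤ X := by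
    intro j hj p hp
    have hjm : j ≤ m := by have := Finset.mem_range.1 hj; omega
    refine (pow_le_pow_left₀ (Nat.cast_nonneg p) (RG_le p hp) _).trans ?_
    rw [yy_pow (by linarith) hjm]
  choose! E hE1 hE2 hE3 using fun (j : ℕ) (hj : j ∈ range (m + 1)) =>
    one_range h b (RG_prime (X := X) (m := m) (j := j)) (k := 2 ^ (m - j)) Nat.one_le_two_pow
      (hx j hj) (hA0 j)
  have hvar : ∀ j, (∑ p ∈ RG X m j, ‖b p‖ ^ 2 * (1 + Real.log p ^ 2)) / A j ^ 2 ≤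
      Real.exp (-2) * (4 ^ j * lo X m j ^ (-(1 / 2) : ℝ)) := by
    intro j
    have h1 := variance (RG_prime (X := X) (m := m) (j := j)) (hlo j) RG_lt hr.le
      fun p hp => hb p (RG_prime p hp)
    rw [div_le_iff₀ (by have := hA0 j; positivity)]
    refine h1.trans ?_
    have e1 : A j ^ 2 * 4 ^ j = Real.exp 2 * C0 ^ 2 * r ^ 2 := by
      have e4 : ((1 / 2 : ℝ) ^ j) ^ 2 * 4 ^ j = 1 := by
        rw [← pow_mul, mul_comm j 2, pow_mul, ← mul_pow]
        norm_num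
      have e5 : Real.exp 1 ^ 2 = Real.exp 2 := by
        rw [← Real.exp_nat_mul]
        norm_num
      calc A j ^ 2 * 4 ^ j = Real.exp 1 ^ 2 * C0 ^ 2 * r ^ 2 * (((1 / 2 : ℝ) ^ j) ^ 2 * 4 ^ j) := by
            simp only [hA]; ring
        _ = _ := by rw [e4, e5, mul_one]
    have e2 : Real.exp (-2) * (4 ^ j * lo X m j ^ (-(1 / 2) : ℝ)) * A j ^ 2 =
        (A j ^ 2 * 4 ^ j) * Real.exp (-2) * lo X m j ^ (-(1 / 2) : ℝ) := by ring
    rw [e2, e1]
    have e3 : Real.exp 2 * C0 ^ 2 * r ^ 2 * Real.exp (-2) = C0 ^ 2 * r ^ 2 := by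
      rw [Real.exp_neg]
      have := Real.exp_pos 2
      field_simp
    rw [e3]
    have h2 : C0 ≤ C0 ^ 2 := by nlinarith
    have h3 : 0 ≤ lo X m j ^ (-(1 / 2) : ℝ) := by have := hlo j; positivity
    calc r ^ 2 * (C0 * lo X m j ^ (-(1 / 2) : ℝ)) ≤
        r ^ 2 * (C0 ^ 2 * lo X m j ^ (-(1 / 2) : ℝ)) := by gcongr
      _ = _ := by ring
  have hvar0 : ∀ j, 0 ≤ (∑ p ∈ RG X m j, ‖b p‖ ^ 2 * (1 + Real.log p ^ 2)) / A j ^ 2 := fun j =>
    div_nonneg (Finset.sum_nonneg fun p _ => by positivity) (by positivity)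
  have hmeas : ∀ j ∈ range (m + 1), μ (E j) ≤ ENNReal.ofReal (D * (5 * Real.exp (-(2 : ℝ) ^ m) *
      (if j = 0 then 1 else ((2 : ℝ) ^ m)⁻¹))) := by
    intro j hj
    have hjm : j ≤ m := by have := Finset.mem_range.1 hj; omega
    refine (hE2 j hj).trans (ENNReal.ofReal_le_ofReal (mul_le_mul_of_nonneg_left ?_ h.nonneg))
    rcases Nat.eq_zero_or_pos j with hj0 | hj0
    · subst hj0
      rw [if_pos rfl, mul_one]
      have h1 := hvar 0
      have h2 : Real.exp (-2) * (4 ^ 0 * lo X m 0 ^ (-(1 / 2) : ℝ)) =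
          Real.exp (-2) / ((2 ^ (m - 0) : ℕ) : ℝ) := by
        unfold lo
        have e6 : (((2 : ℝ) ^ m) ^ 2) ^ (-(1 / 2) : ℝ) = ((2 : ℝ) ^ m)⁻¹ := by
          rw [← Real.rpow_natCast ((2 : ℝ) ^ m) 2, ← Real.rpow_mul (by positivity),
            ← Real.rpow_neg_one]
          norm_num
        rw [if_pos rfl, pow_zero, one_mul, e6, div_eq_mul_inv]
        push_cast
        rw [Nat.sub_zero]
      rw [h2] at h1
      have h3 := meas_zero (k := 2 ^ (m - 0)) Nat.one_le_two_pow (hvar0 0) h1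
      refine h3.trans (le_of_eq ?_)
      push_cast
      rw [Nat.sub_zero]
    · rw [if_neg (by omega)]
      have h1 := hvar j
      have h2 : Real.exp (-2) * (4 ^ j * lo X m j ^ (-(1 / 2) : ℝ)) ≤
          4 ^ j * yy X m (j - 1) ^ (-(1 / 2) : ℝ) := by
        unfold lo
        rw [if_neg (by omega)]
        refine mul_le_of_le_one_left (mul_nonneg (by positivity) ?_) (Real.exp_le_one_iff.2 (by norm_num))
        have : 0 ≤ yy X m (j - 1) := by unfold yy; positivity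
        positivity
      exact meas_pos hX hj0 hjm HX (hvar0 j) (h1.trans h2)
  refine ⟨⋃ j ∈ range (m + 1), E j, Finset.measurableSet_biUnion _ fun j hj => hE1 j hj, ?_, ?_⟩
  · refine (measure_biUnion_finset_le _ _).trans ((Finset.sum_le_sum hmeas).trans ?_)
    rw [← ENNReal.ofReal_sum_of_nonneg fun j _ => by
      have := h.nonneg
      split_ifs <;> positivity]
    refine ENNReal.ofReal_le_ofReal ?_
    rw [← Finset.mul_sum, ← Finset.mul_sum, Finset.sum_range_succ']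
    have e1 : ∑ j ∈ range m, (if j + 1 = 0 then (1 : ℝ) else ((2 : ℝ) ^ m)⁻¹) ≤ 1 := by
      have : ∀ j ∈ range m, (if j + 1 = 0 then (1 : ℝ) else ((2 : ℝ) ^ m)⁻¹) = ((2 : ℝ) ^ m)⁻¹ :=
        fun j _ => if_neg (by omega)
      rw [Finset.sum_congr rfl this, Finset.sum_const, Finset.card_range, nsmul_eq_mul,
        ← div_eq_mul_inv, div_le_one (by positivity)]
      exact_mod_cast Nat.lt_two_pow_self.le
    have hDe : 0 ≤ D * (5 * Real.exp (-(2 : ℝ) ^ m)) := by have := h.nonneg; positivity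
    rw [if_pos rfl]
    have e2 : ∑ j ∈ range m, (if j + 1 = 0 then (1 : ℝ) else ((2 : ℝ) ^ m)⁻¹) + 1 ≤ 2 := by linarith
    calc D * (5 * Real.exp (-(2 : ℝ) ^ m) *
          (∑ j ∈ range m, (if j + 1 = 0 then (1 : ℝ) else ((2 : ℝ) ^ m)⁻¹) + 1))
        = D * (5 * Real.exp (-(2 : ℝ) ^ m)) *
          (∑ j ∈ range m, (if j + 1 = 0 then (1 : ℝ) else ((2 : ℝ) ^ m)⁻¹) + 1) := by ring
      _ ≤ D * (5 * Real.exp (-(2 : ℝ) ^ m)) * 2 := mul_le_mul_of_nonneg_left e2 hDe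
      _ = _ := by ring
  · intro ω hω x hx0 hx1
    have hω' : ∀ j ∈ range (m + 1), ω ∉ E j := by
      intro j hj hmem
      exact hω (Set.mem_biUnion hj hmem)
    unfold SP
    rw [telescope hX h0]
    refine (norm_add_le _ _).trans (add_le_add ?_ ?_)
    · refine (norm_sum_le _ _).trans ?_
      have h1 : ∀ p ∈ (PX X).filter (fun p : ℕ => (p : ℝ) ≤ ((2 : ℝ) ^ m) ^ 2),
          ‖(b p * (((p : ℝ) ^ (-x) : ℝ) : ℂ)) * χ p ω‖ ≤ r * (p : ℝ)⁻¹ := by
        intro p hp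
        have hpp : p.Prime := ((mem_PX (by linarith)).1 (Finset.mem_filter.1 hp).1).1
        obtain ⟨h2, h3, -⟩ := sizes hpp hx0
        rw [norm_mul, norm_mul, Complex.norm_real, Real.norm_eq_abs, abs_of_nonneg h3]
        have h4 := hb p hpp
        have h5 := h.le_one p ω
        calc ‖b p‖ * (p : ℝ) ^ (-x) * ‖χ p ω‖ ≤ (r / p) * 1 * 1 := by gcongr
          _ = _ := by rw [mul_one, mul_one, div_eq_mul_inv]
      refine (Finset.sum_le_sum h1).trans ?_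
      rw [← Finset.mul_sum]
      refine mul_le_mul_of_nonneg_left ?_ hr.le
      have h6 : 0 ≤ Real.log ((2 : ℝ) ^ m) := Real.log_nonneg (one_le_pow₀ (by norm_num))
      have h7 := mertens (I := (PX X).filter (fun p : ℕ => (p : ℝ) ≤ ((2 : ℝ) ^ m) ^ 2))
        (fun p hp => ((mem_PX (by linarith)).1 (Finset.mem_filter.1 hp).1).1)
        (L := 2 * Real.log ((2 : ℝ) ^ m) + 1) (by linarith) (fun p hp => by
          have hpp : p.Prime := ((mem_PX (by linarith)).1 (Finset.mem_filter.1 hp).1).1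
          have h8 := Real.log_le_log (by exact_mod_cast hpp.pos) (Finset.mem_filter.1 hp).2
          rw [Real.log_pow] at h8
          push_cast at h8
          linarith)
      refine h7.trans (le_of_eq ?_)
      ring_nf
    · refine (norm_sum_le _ _).trans ?_
      have h1 : ∀ j ∈ range (m + 1),
          ‖∑ p ∈ RG X m j, (b p * (((p : ℝ) ^ (-x) : ℝ) : ℂ)) * χ p ω‖ ≤ A j := fun j hj =>
        hE3 j hj ω (hω' j hj) x hx0 hx1
      refine (Finset.sum_le_sum h1).trans ?_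
      simp only [hA]
      rw [← Finset.mul_sum]
      have h2 : ∑ j ∈ range (m + 1), ((1 : ℝ) / 2) ^ j ≤ 2 := by
        have h3 := (summable_geometric_of_lt_one (r := (1 : ℝ) / 2) (by norm_num)
          (by norm_num)).sum_le_tsum (range (m + 1)) (fun _ _ => by positivity)
        rw [tsum_geometric_of_lt_one (by norm_num) (by norm_num)] at h3
        norm_num at h3 ⊢
        exact h3
      calc Real.exp 1 * C0 * r * ∑ j ∈ range (m + 1), ((1 : ℝ) / 2) ^ j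
          ≤ Real.exp 1 * C0 * r * 2 := by gcongr
        _ = _ := by ring

end

end Pool.Agent.X280.HY
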