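import Pool.Agent.X280.HY.Hybrid

/-! Twisted L-functions near the edge of absolute convergence. -/

set_option autoImplicit false

namespace Pool.Agent.X280.HY

open Finset MeasureTheory
open scoped ENNReal

/-- the discrete measurable space on the set of characters -/
instance instMC (q : ℕ) : MeasurableSpace (DirichletCharacter ℂ q) := ⊤

instance instMSC (q : ℕ) : MeasurableSingletonClass (DirichletCharacter ℂ q) :=
  ⟨fun _ => trivial⟩

/-- all characters modulo `q` and all heights in `[-T, T]` -/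
noncomputable def muH (q : ℕ) (T : ℝ) : Measure (DirichletCharacter ℂ q × ℝ) :=
  (Measure.count : Measure (DirichletCharacter ℂ q)).prod (volume.restrict (Set.Icc (-T) T))

/-- `χ(n) n^{-it}` -/
noncomputable def chH (q : ℕ) (n : ℕ) (ω : DirichletCharacter ℂ q × ℝ) : ℂ :=
  ω.1 (n : ZMod q) * EB.ch (Real.log n) ω.2

instance instSF (q : ℕ) [NeZero q] : SFinite (Measure.count : Measure (DirichletCharacter ℂ q)) :=
  inferInstance

instance instSF2 (q : ℕ) [NeZero q] (T : ℝ) : SFinite (muH q T) := by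
  unfold muH
  infer_instance

theorem QO_hybrid (q : ℕ) [NeZero q] {T : ℝ} (hT : 0 < T) :
    QO (muH q T) (chH q) (q * T) (C6 * q.totient * T) where
  meas n := by
    unfold chH
    exact ((measurable_from_top (f := fun ψ : DirichletCharacter ℂ q => ψ (n : ZMod q))).comp
      measurable_fst).mul ((EB.cont_ch _).measurable.comp measurable_snd)
  le_one n ω := by
    unfold chH
    rw [norm_mul, EB.norm_ch, mul_one]
    exact DirichletCharacter.norm_le_one _ _
  one ω := by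
    unfold chH EB.ch
    simp
  mul m n ω hm hn := by
    unfold chH
    rw [EB.ch_mul ω.2 m n hm hn]
    push_cast
    rw [map_mul]
    ring
  nonneg := by
    have := C6_nonneg
    positivity
  orth s c hs := by
    have hcont : ∀ ψ : DirichletCharacter ℂ q, Continuous fun t =>
        ‖∑ n ∈ s, c n * (ψ (n : ZMod q) * EB.ch (Real.log n) t)‖ ^ 2 := fun ψ =>
      (continuous_finsetSum _ fun n _ => continuous_const.mul
        (continuous_const.mul (EB.cont_ch _))).norm.pow 2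
    have hm : Measurable fun ω : DirichletCharacter ℂ q × ℝ =>
        ENNReal.ofReal (‖∑ n ∈ s, c n * chH q n ω‖ ^ 2) := by
      refine (Measurable.pow_const (Measurable.norm (Finset.measurable_sum _ fun n _ => ?_)) _).ennreal_ofReal
      unfold chH
      exact (((measurable_from_top (f := fun ψ : DirichletCharacter ℂ q => ψ (n : ZMod q))).comp
        measurable_fst).mul ((EB.cont_ch _).measurable.comp measurable_snd)).const_mul _
    unfold muH
    rw [lintegral_prod _ hm.aemeasurable, lintegral_count, tsum_fintype]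
    have h1 : ∀ ψ : DirichletCharacter ℂ q, ∫⁻ t in Set.Icc (-T) T,
        ENNReal.ofReal (‖∑ n ∈ s, c n * chH q n (ψ, t)‖ ^ 2) =
        ENNReal.ofReal (∫ t in (-T)..T,
          ‖∑ n ∈ s, c n * (ψ (n : ZMod q) * EB.ch (Real.log n) t)‖ ^ 2) := by
      intro ψ
      rw [intervalIntegral.integral_of_le (by linarith), ← integral_Icc_eq_integral_Ioc,
        ofReal_integral_eq_lintegral_ofReal (hcont ψ).continuousOn.integrableOn_Icc
          (Filter.Eventually.of_forall fun t => by positivity)]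
      rfl
    simp_rw [h1]
    rw [← ENNReal.ofReal_sum_of_nonneg fun ψ _ =>
      intervalIntegral.integral_nonneg (by linarith) fun t _ => by positivity]
    exact ENNReal.ofReal_le_ofReal (hybrid hT hs c)

section
variable {r : ℕ} {c : ℝ} {α : ℕ → Fin r → ℂ}

/-- The twisted Euler product `∏_p ∏_j (1 - α_j(p) χ(p) p^{-s})⁻¹`. -/
noncomputable def Ltw {q : ℕ} (χ : DirichletCharacter ℂ q) (α : ℕ → Fin r → ℂ) (s : ℂ) : ℂ :=
  ∏' p : Nat.Primes, ∏ j, (1 - α p j * χ ((p : ℕ) : ZMod q) * ((p : ℕ) : ℂ) ^ (-s))⁻¹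

/-- the normalised coefficients, shifted by `t₀` -/
noncomputable def nz (c t₀ : ℝ) (α : ℕ → Fin r → ℂ) (p : ℕ) (j : Fin r) : ℂ :=
  α p j * (((p : ℝ) ^ (-c) : ℝ) : ℂ) * EB.ch (Real.log p) t₀

theorem nz_le (hα : ∀ p : ℕ, p.Prime → ∀ j, ‖α p j‖ ≤ (p : ℝ) ^ c) (t₀ : ℝ) :
    ∀ p : ℕ, p.Prime → ∀ j, ‖nz c t₀ α p j‖ ≤ 1 := by
  intro p hp j
  have hp0 : (0 : ℝ) < p := by exact_mod_cast hp.pos
  unfold nz
  rw [norm_mul, EB.norm_ch, mul_one, norm_mul, Complex.norm_real, Real.norm_eq_abs,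
    abs_of_nonneg (by positivity), Real.rpow_neg hp0.le, ← div_eq_mul_inv, div_le_one (by positivity)]
  exact hα p hp j

theorem term_eq {q : ℕ} (χ : DirichletCharacter ℂ q) (t₀ ε u : ℝ) {p : ℕ} (hp : p.Prime)
    (j : Fin r) :
    α p j * χ (p : ZMod q) * (p : ℂ) ^ (-((1 : ℂ) + c + ε + (t₀ + u) * Complex.I)) =
      EB.zz (fun p j => nz c t₀ α p j * chH q p (χ, u)) ε 0 p j := by
  have hp0 : (0 : ℝ) < p := by exact_mod_cast hp.pos
  have hpc : (p : ℂ) ≠ 0 := by exact_mod_cast hp.ne_zero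
  have hlog : Complex.log (p : ℂ) = ((Real.log p : ℝ) : ℂ) := by
    rw [Complex.ofReal_log hp0.le]
    simp
  unfold EB.zz nz chH
  rw [ch_zero, mul_one]
  unfold EB.ch
  beta_reduce
  rw [Complex.cpow_def_of_ne_zero hpc, hlog, Real.rpow_def_of_pos hp0, Real.rpow_def_of_pos hp0,
    Complex.ofReal_exp, Complex.ofReal_exp]
  have e1 : Complex.exp (((Real.log p : ℝ) : ℂ) * -((1 : ℂ) + c + ε + (t₀ + u) * Complex.I)) =
      Complex.exp (((Real.log p * -c : ℝ) : ℂ)) *
      Complex.exp (-((t₀ * Real.log p : ℝ) : ℂ) * Complex.I) *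
      Complex.exp (-((u * Real.log p : ℝ) : ℂ) * Complex.I) *
      Complex.exp (((Real.log p * -(1 + ε) : ℝ) : ℂ)) := by
    rw [← Complex.exp_add, ← Complex.exp_add, ← Complex.exp_add]
    congr 1
    push_cast
    ring
  rw [e1]
  ring

theorem Ltw_eq {q : ℕ} (hα : ∀ p : ℕ, p.Prime → ∀ j, ‖α p j‖ ≤ (p : ℝ) ^ c)
    (χ : DirichletCharacter ℂ q) {t₀ ε u : ℝ} (hε : 0 < ε) :
    HasProd (fun p : Nat.Primes => ∏ j, (1 - α p j * χ ((p : ℕ) : ZMod q) *
        ((p : ℕ) : ℂ) ^ (-((1 : ℂ) + c + ε + (t₀ + u) * Complex.I)))⁻¹)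
      (Complex.exp (EB.LG (fun p j => nz c t₀ α p j * chH q p (χ, u)) ε 0)) := by
  set y : ℕ → Fin r → ℂ := fun p j => nz c t₀ α p j * chH q p (χ, u) with hy
  have hx : ∀ p : ℕ, p.Prime → ∀ j, ‖y p j‖ ≤ 1 := fun p hp j => by
    simp only [hy]
    rw [norm_mul]
    refine mul_le_one₀ (nz_le hα t₀ p hp j) (norm_nonneg _) ?_
    unfold chH
    rw [norm_mul, EB.norm_ch, mul_one]
    exact DirichletCharacter.norm_le_one _ _
  have h1 : Summable fun p : Nat.Primes => ∑ j, Complex.log (1 - EB.zz y ε 0 p j)⁻¹ := by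
    have e1 := (EB.summable_a hε (fun p hp => EB.norm_tr hx hp) 0).of_norm.add
      (EB.RR_summable hx hε.le 0)
    refine e1.congr fun p => ?_
    rw [← EB.sum_zz, ← Finset.sum_add_distrib]
    refine Finset.sum_congr rfl fun j _ => ?_
    unfold EB.ph
    ring
  have h2 := h1.hasSum.cexp
  unfold EB.LG
  refine h2.congr_fun fun p => ?_
  simp only [Function.comp, Complex.exp_sum]
  refine Finset.prod_congr rfl fun j _ => ?_
  rw [term_eq χ t₀ ε u p.2 j, Complex.exp_log]
  apply inv_ne_zero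
  intro h3
  have h4 : ‖EB.zz y ε 0 p j‖ = 1 := by rw [← sub_eq_zero.mp h3, norm_one]
  obtain ⟨-, h5, h6⟩ := EB.norm_zz hx hε.le 0 p.2 j
  linarith

/-- the constant of the final theorem -/
noncomputable def CH : ℝ := Real.exp (C5 + 2) + 10 * C6 + 80

/-- **Twisted L-functions near the edge.** -/
theorem near_edge (hα : ∀ p : ℕ, p.Prime → ∀ j, ‖α p j‖ ≤ (p : ℝ) ^ c) (q : ℕ) [NeZero q]
    {T : ℝ} (hT : 1 ≤ T) (t₀ : ℝ) {K : ℝ} (hK : 3 ≤ K)
    (hKX : CH * (K * Real.log K) ≤ Real.log (q * T)) :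
    ∑ χ : DirichletCharacter ℂ q, volume {t : ℝ | |t - t₀| ≤ T ∧ ∃ σ : ℝ,
        1 + c + 1 / Real.log (q * T) ≤ σ ∧
        ¬ (((CH * Real.log K) ^ r)⁻¹ ≤ ‖Ltw χ α (σ + t * Complex.I)‖ ∧
          ‖Ltw χ α (σ + t * Complex.I)‖ ≤ (CH * Real.log K) ^ r)} ≤
      ENNReal.ofReal (CH * q.totient * T * Real.exp (-K)) := by
  have hT0 : 0 < T := by linarith
  have hK0 : 0 < K := by linarith
  have hC6 := C6_nonneg
  have hC5 := C5_nonneg
  have hlK : 1 ≤ Real.log K := by
    rw [Real.le_log_iff_exp_le hK0]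
    have := Real.exp_one_lt_d9
    linarith
  have hKlK : 0 < K * Real.log K := by positivity
  have hCH : 80 ≤ CH := by unfold CH; have := Real.exp_pos (C5 + 2); linarith
  have hCH2 : Real.exp (C5 + 2) ≤ CH := by unfold CH; linarith
  have hCH3 : 10 * C6 ≤ CH := by unfold CH; have := Real.exp_pos (C5 + 2); linarith
  have hq1 : (1 : ℝ) ≤ q := by exact_mod_cast Nat.pos_of_ne_zero (NeZero.ne q)
  have h80 : 80 * (K * Real.log K) ≤ Real.log (q * T) :=
    (mul_le_mul_of_nonneg_right hCH hKlK.le).trans hKX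
  have hlX : 0 < Real.log (q * T) := by linarith
  have hX1 : 1 < (q : ℝ) * T := by
    by_contra h1
    have := Real.log_nonpos (by positivity) (not_lt.1 h1)
    linarith
  obtain ⟨E, hE1, hE2, hE3⟩ := large_dev (QO_hybrid q hT0) hX1 (nz_le hα t₀) hK h80
  set S : DirichletCharacter ℂ q → Set ℝ := fun χ => {t : ℝ | |t - t₀| ≤ T ∧ ∃ σ : ℝ,
        1 + c + 1 / Real.log (q * T) ≤ σ ∧
        ¬ (((CH * Real.log K) ^ r)⁻¹ ≤ ‖Ltw χ α (σ + t * Complex.I)‖ ∧
          ‖Ltw χ α (σ + t * Complex.I)‖ ≤ (CH * Real.log K) ^ r)} with hS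
  have hgood : ∀ (χ : DirichletCharacter ℂ q) (u : ℝ), (χ, u) ∉ E → ∀ σ : ℝ,
      1 + c + 1 / Real.log (q * T) ≤ σ →
      ((CH * Real.log K) ^ r)⁻¹ ≤ ‖Ltw χ α (σ + ((t₀ + u : ℝ) : ℂ) * Complex.I)‖ ∧
          ‖Ltw χ α (σ + ((t₀ + u : ℝ) : ℂ) * Complex.I)‖ ≤ (CH * Real.log K) ^ r := by
    intro χ u hu σ hσ
    set ε : ℝ := σ - 1 - c with hε
    have h1 : 1 / Real.log (q * T) ≤ ε := by rw [hε]; linarith
    have hε0 : 0 < ε := lt_of_lt_of_le (by positivity) h1
    have h2 := hE3 (χ, u) hu ε h1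
    have h3 := (Ltw_eq (t₀ := t₀) (u := u) hα χ hε0).tprod_eq
    have h4 : Ltw χ α (σ + ((t₀ + u : ℝ) : ℂ) * Complex.I) =
        Complex.exp (EB.LG (fun p j => nz c t₀ α p j * chH q p (χ, u)) ε 0) := by
      rw [← h3]
      unfold Ltw
      congr 1
      funext p
      congr 1
      funext j
      congr 5
      rw [hε]
      push_cast
      ring
    rw [h4, Complex.norm_exp]
    set w := EB.LG (fun p j => nz c t₀ α p j * chH q p (χ, u)) ε 0
    have h5 : |w.re| ≤ r * (Real.log (Real.log K) + (C5 + 2)) := (Complex.abs_re_le_norm w).trans h2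
    have h6 : Real.exp (r * (Real.log (Real.log K) + (C5 + 2))) ≤ (CH * Real.log K) ^ r := by
      rw [Real.exp_nat_mul]
      refine pow_le_pow_left₀ (by positivity) ?_ _
      rw [Real.exp_add, Real.exp_log (by linarith), mul_comm]
      exact mul_le_mul_of_nonneg_right hCH2 (by linarith)
    have h7 := abs_le.1 h5
    constructor
    · refine le_trans (inv_anti₀ (Real.exp_pos _) h6) ?_
      rw [← Real.exp_neg, Real.exp_le_exp]
      linarith
    · exact (Real.exp_le_exp.2 h7.2).trans h6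
  have hsub : ∀ χ, volume (S χ) ≤ (volume.restrict (Set.Icc (-T) T)) (Prod.mk χ ⁻¹' E) := by
    intro χ
    rw [Measure.restrict_apply (measurable_prodMk_left hE1)]
    have h1 : S χ ⊆ (fun t => t + (-t₀)) ⁻¹' (Prod.mk χ ⁻¹' E ∩ Set.Icc (-T) T) := by
      rintro t ⟨h2, σ, h3, h4⟩
      refine ⟨?_, ?_⟩
      · by_contra h5
        refine h4 ?_
        have := hgood χ (t + (-t₀)) h5 σ h3
        rw [show t₀ + (t + (-t₀)) = t by ring] at this
        exact this
      · show t + -t₀ ∈ Set.Icc (-T) T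
        rw [← sub_eq_add_neg]
        exact abs_le.1 h2
    refine (measure_mono h1).trans (le_of_eq ?_)
    exact measure_preimage_add_right volume (-t₀) _
  have hprod : muH q T E = ∑ χ : DirichletCharacter ℂ q,
      (volume.restrict (Set.Icc (-T) T)) (Prod.mk χ ⁻¹' E) := by
    unfold muH
    rw [Measure.prod_apply hE1, lintegral_count, tsum_fintype]
  refine (Finset.sum_le_sum fun χ _ => hsub χ).trans ?_
  rw [← hprod]
  refine hE2.trans (ENNReal.ofReal_le_ofReal ?_)
  have h8 : 0 ≤ (q.totient : ℝ) * T * Real.exp (-K) := by positivity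
  calc 10 * (C6 * q.totient * T) * Real.exp (-K) = (10 * C6) * (q.totient * T * Real.exp (-K)) := by
        ring
    _ ≤ CH * (q.totient * T * Real.exp (-K)) := mul_le_mul_of_nonneg_right hCH3 h8
    _ = _ := by ring

end

end Pool.Agent.X280.HY
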