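import Pool.Agent.X280.HY.Large
import Pool.Agent.X280.EB.Kernel
import Pool.Agent.X280.EB.Exp

/-! The family of all characters modulo `q` and all heights in an interval. -/

set_option autoImplicit false

namespace Pool.Agent.X280.HY

open Finset MeasureTheory
open scoped ENNReal

/-- orthogonality -/
theorem char_orth {q : ℕ} [NeZero q] (a b : ZMod q) :
    ∑ ψ : DirichletCharacter ℂ q, (starRingEnd ℂ) (ψ b) * ψ a =
      if a = b ∧ IsUnit b then (q.totient : ℂ) else 0 := by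
  by_cases hb : IsUnit b
  · have h1 : ∀ ψ : DirichletCharacter ℂ q, (starRingEnd ℂ) (ψ b) = ψ b⁻¹ := by
      intro ψ
      have h2 : ‖ψ b‖ = 1 := ψ.unit_norm_eq_one hb.unit
      have h3 : ψ b⁻¹ * ψ b = 1 := by
        rw [← map_mul, ZMod.inv_mul_of_unit b hb, map_one]
      have h4 : (starRingEnd ℂ) (ψ b) * ψ b = 1 := by
        rw [mul_comm, Complex.mul_conj, Complex.normSq_eq_norm_sq, h2]
        norm_num
      have h5 : ψ b ≠ 0 := by
        intro h6
        rw [h6, norm_zero] at h2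
        exact zero_ne_one h2
      exact mul_right_cancel₀ h5 (h4.trans h3.symm)
    simp_rw [h1]
    rw [DirichletCharacter.sum_char_inv_mul_char_eq ℂ hb a]
    by_cases hab : a = b
    · rw [if_pos hab.symm, if_pos ⟨hab, hb⟩]
    · rw [if_neg (fun h => hab h.symm), if_neg (fun h => hab h.1)]
  · rw [if_neg fun h => hb h.2]
    refine Finset.sum_eq_zero fun ψ _ => ?_
    rw [MulChar.map_nonunit ψ hb, map_zero, zero_mul]

/-- Parseval -/
theorem parseval {q : ℕ} [NeZero q] (F : ZMod q → ℂ) :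
    ∑ ψ : DirichletCharacter ℂ q, ‖∑ a, F a * ψ a‖ ^ 2 ≤ q.totient * ∑ a, ‖F a‖ ^ 2 := by
  classical
  have h1 : ∀ ψ : DirichletCharacter ℂ q, ((‖∑ a, F a * ψ a‖ ^ 2 : ℝ) : ℂ) =
      ∑ a, ∑ b, (F a * (starRingEnd ℂ) (F b)) * ((starRingEnd ℂ) (ψ b) * ψ a) := by
    intro ψ
    have : ((‖∑ a, F a * ψ a‖ ^ 2 : ℝ) : ℂ) = (∑ a, F a * ψ a) * (starRingEnd ℂ) (∑ a, F a * ψ a) := by
      rw [Complex.mul_conj, Complex.normSq_eq_norm_sq]
    rw [this, map_sum, Finset.sum_mul_sum]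
    refine Finset.sum_congr rfl fun a _ => Finset.sum_congr rfl fun b _ => ?_
    rw [map_mul]
    ring
  have h2 : ((∑ ψ : DirichletCharacter ℂ q, ‖∑ a, F a * ψ a‖ ^ 2 : ℝ) : ℂ) =
      ((∑ a ∈ univ.filter (fun a : ZMod q => IsUnit a), q.totient * ‖F a‖ ^ 2 : ℝ) : ℂ) := by
    rw [Complex.ofReal_sum]
    simp_rw [h1]
    rw [Finset.sum_comm]
    have h3 : ∀ a : ZMod q, ∑ ψ : DirichletCharacter ℂ q, ∑ b,
        (F a * (starRingEnd ℂ) (F b)) * ((starRingEnd ℂ) (ψ b) * ψ a) =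
        if IsUnit a then ((q.totient * ‖F a‖ ^ 2 : ℝ) : ℂ) else 0 := by
      intro a
      rw [Finset.sum_comm]
      simp_rw [← Finset.mul_sum, char_orth]
      rw [Finset.sum_eq_single a]
      · by_cases ha : IsUnit a
        · rw [if_pos ⟨rfl, ha⟩, if_pos ha, Complex.mul_conj, Complex.normSq_eq_norm_sq]
          push_cast
          ring
        · rw [if_neg fun h => ha h.2, if_neg ha, mul_zero]
      · intro b _ hb
        rw [if_neg fun h => hb h.1.symm, mul_zero]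
      · intro h
        exact absurd (Finset.mem_univ a) h
    simp_rw [h3]
    rw [← Finset.sum_filter, Complex.ofReal_sum]
  have h4 := Complex.ofReal_injective h2
  rw [h4, Finset.mul_sum]
  exact Finset.sum_le_sum_of_subset_of_nonneg (Finset.filter_subset _ _)
    fun a _ _ => by positivity

theorem summable_exp_int : Summable fun k : ℤ => Real.exp (-|(k : ℝ)|) := by
  have h1 : Summable fun n : ℕ => Real.exp (-(n : ℝ)) := by
    have := summable_geometric_of_lt_one (r := Real.exp (-1)) (by positivity)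
      (by rw [← Real.exp_zero]; exact Real.exp_lt_exp.2 (by norm_num))
    refine this.congr fun n => ?_
    rw [← Real.exp_nat_mul]
    congr 1
    ring
  refine Summable.of_nat_of_neg ?_ ?_
  · refine h1.congr fun n => ?_
    push_cast
    rw [abs_of_nonneg (Nat.cast_nonneg n)]
  · refine h1.congr fun n => ?_
    push_cast
    rw [abs_neg, abs_of_nonneg (Nat.cast_nonneg n)]

/-- the constant -/
noncomputable def Z1 : ℝ := ∑' k : ℤ, Real.exp (-|(k : ℝ)|)

theorem Z1_nonneg : 0 ≤ Z1 := tsum_nonneg fun k => by positivity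

theorem log_gap {q : ℕ} (hq : 0 < q) {T : ℝ} (hT : 0 < T) {n m : ℕ} (hn : 0 < n) (hnm : n ≤ m)
    (hm : (m : ℝ) ≤ q * T) : ((m : ℝ) - n) / q ≤ T * (Real.log m - Real.log n) := by
  have hn0 : (0 : ℝ) < n := by exact_mod_cast hn
  have hm0 : (0 : ℝ) < m := by exact_mod_cast (hn.trans_le hnm)
  have hq0 : (0 : ℝ) < q := by exact_mod_cast hq
  have hnm' : (n : ℝ) ≤ m := by exact_mod_cast hnm
  have h1 := Real.one_sub_inv_le_log_of_pos (div_pos hm0 hn0)
  rw [Real.log_div hm0.ne' hn0.ne', inv_div] at h1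
  have h2 : ((m : ℝ) - n) / q ≤ T * (1 - n / m) := by
    rw [div_le_iff₀ hq0]
    have e1 : T * (1 - n / m) * q = (q * T) * (m - n) / m := by
      field_simp
    rw [e1, le_div_iff₀ hm0]
    nlinarith
  exact h2.trans (mul_le_mul_of_nonneg_left h1 hT.le)

/-- the sum over one row -/
theorem row {q : ℕ} (hq : 0 < q) {T : ℝ} (hT : 0 < T) {s : Finset ℕ} {a : ZMod q}
    (hs : ∀ n ∈ s, 0 < n ∧ (n : ℝ) ≤ q * T ∧ ((n : ℕ) : ZMod q) = a) {n : ℕ} (hn : n ∈ s) :
    ∑ m ∈ s, Real.exp (-((T * Real.log n - T * Real.log m) ^ 2 / 4)) ≤ Real.exp 1 * Z1 := by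
  classical
  have hq0 : (0 : ℝ) < q := by exact_mod_cast hq
  set g : ℕ → ℤ := fun m => ((m : ℤ) - n) / q with hg
  have hdvd : ∀ m ∈ s, (q : ℤ) ∣ (m : ℤ) - n := by
    intro m hm
    have h1 : ((m : ℤ) : ZMod q) = ((n : ℤ) : ZMod q) := by
      push_cast
      rw [(hs m hm).2.2, (hs n hn).2.2]
    have h2 := (ZMod.intCast_eq_intCast_iff_dvd_sub _ _ q).1 h1
    rw [← neg_sub]
    exact (dvd_neg.2 h2)
  have hmul : ∀ m ∈ s, (q : ℤ) * g m = (m : ℤ) - n := fun m hm => Int.mul_ediv_cancel' (hdvd m hm)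
  have hinj : ∀ m ∈ s, ∀ m' ∈ s, g m = g m' → m = m' := by
    intro m hm m' hm' h
    have h1 := hmul m hm
    have h2 := hmul m' hm'
    rw [h] at h1
    omega
  have hle : ∀ m ∈ s, Real.exp (-((T * Real.log n - T * Real.log m) ^ 2 / 4)) ≤
      Real.exp 1 * Real.exp (-|((g m : ℤ) : ℝ)|) := by
    intro m hm
    refine (EB.gauss_le_exp _).trans (mul_le_mul_of_nonneg_left (Real.exp_le_exp.2 (neg_le_neg ?_))
      (Real.exp_pos _).le)
    have h1 : ((g m : ℤ) : ℝ) = ((m : ℝ) - n) / q := by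
      rw [eq_div_iff hq0.ne']
      have := hmul m hm
      have h2 : ((q : ℤ) : ℝ) * ((g m : ℤ) : ℝ) = ((m : ℤ) : ℝ) - ((n : ℤ) : ℝ) := by
        exact_mod_cast this
      push_cast at h2
      rw [mul_comm]
      exact h2
    rw [h1, ← mul_sub, abs_mul, abs_of_pos hT]
    obtain ⟨hm1, hm2, -⟩ := hs m hm
    obtain ⟨hn1, hn2, -⟩ := hs n hn
    rcases le_total n m with h | h
    · have h3 := log_gap hq hT hn1 h hm2
      have h4 : (0 : ℝ) ≤ (m : ℝ) - n := sub_nonneg.2 (by exact_mod_cast h)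
      rw [abs_of_nonneg (by positivity), abs_sub_comm]
      exact h3.trans (mul_le_mul_of_nonneg_left (le_abs_self _) hT.le)
    · have h3 := log_gap hq hT hm1 h hn2
      have h4 : (0 : ℝ) ≤ (n : ℝ) - m := sub_nonneg.2 (by exact_mod_cast h)
      rw [abs_div, abs_sub_comm, abs_of_nonneg h4, abs_of_pos hq0]
      exact h3.trans (mul_le_mul_of_nonneg_left (le_abs_self _) hT.le)
  refine (Finset.sum_le_sum hle).trans ?_
  rw [← Finset.mul_sum]
  refine mul_le_mul_of_nonneg_left ?_ (Real.exp_pos _).le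
  have h1 : ∑ m ∈ s, Real.exp (-|((g m : ℤ) : ℝ)|) = ∑ k ∈ s.image g, Real.exp (-|(k : ℝ)|) := by
    rw [Finset.sum_image fun m hm m' hm' h => hinj m hm m' hm' h]
  rw [h1]
  exact summable_exp_int.sum_le_tsum _ fun _ _ => by positivity

/-- the constant -/
noncomputable def C6 : ℝ := 2 * Real.exp 1 * Real.sqrt Real.pi * (Real.exp 1 * Z1)

theorem C6_nonneg : 0 ≤ C6 := by
  have := Z1_nonneg
  unfold C6
  positivity

/-- The mean value theorem in one residue class. -/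
theorem one_class {q : ℕ} (hq : 0 < q) {T : ℝ} (hT : 0 < T) {s : Finset ℕ} {a : ZMod q}
    (hs : ∀ n ∈ s, 0 < n ∧ (n : ℝ) ≤ q * T ∧ ((n : ℕ) : ZMod q) = a) (c : ℕ → ℂ) :
    ∫ t in (-T)..T, ‖∑ n ∈ s, c n * EB.ch (Real.log n) t‖ ^ 2 ≤ C6 * T * ∑ n ∈ s, ‖c n‖ ^ 2 := by
  set f : ℝ → ℝ := fun t => ‖∑ n ∈ s, c n * EB.ch (Real.log n) t‖ ^ 2 with hf
  have hfc : Continuous f := by
    simp only [hf]
    exact (continuous_finsetSum _ fun n _ => continuous_const.mul (EB.cont_ch _)).norm.pow 2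
  set g : ℝ → ℝ := fun u => ‖∑ n ∈ s, c n * EB.ch (T * Real.log n) u‖ ^ 2 with hg
  have hgc : Continuous g := by
    simp only [hg]
    exact (continuous_finsetSum _ fun n _ => continuous_const.mul (EB.cont_ch _)).norm.pow 2
  have hfg : ∀ u, f (T * u) = g u := by
    intro u
    simp only [hf, hg]
    congr 3
    funext n
    unfold EB.ch
    congr 3
    push_cast
    ring
  have h1 : ∫ t in (-T)..T, f t = T * ∫ u in (-1 : ℝ)..1, g u := by
    have h2 := intervalIntegral.integral_comp_mul_left (a := -1) (b := 1) f hT.ne'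
    simp_rw [hfg] at h2
    rw [h2, smul_eq_mul, mul_neg, mul_one, ← mul_assoc, mul_inv_cancel₀ hT.ne', one_mul]
  set W : ℝ := ∑ n ∈ s, ∑ m ∈ s, ‖c n‖ * ‖c m‖ *
    Real.exp (-((T * Real.log n - T * Real.log m) ^ 2 / 4)) with hW
  have h3 : ∫ u in (-1 : ℝ)..1, g u ≤ 2 * (Real.exp 1 * (Real.sqrt Real.pi * W)) := by
    rw [← intervalIntegral.integral_add_adjacent_intervals (hgc.intervalIntegrable (-1) 0)
      (hgc.intervalIntegrable 0 1)]
    have h4 := EB.gauss_bound s c (fun n => T * Real.log n) (-1)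
    have h5 := EB.gauss_bound s c (fun n => T * Real.log n) 0
    norm_num at h4 h5
    simp only [hg]
    linarith
  have h6 : W ≤ Real.exp 1 * Z1 * ∑ n ∈ s, ‖c n‖ ^ 2 := by
    have h7 : ∀ n ∈ s, ∀ m ∈ s, ‖c n‖ * ‖c m‖ *
        Real.exp (-((T * Real.log n - T * Real.log m) ^ 2 / 4)) ≤
        ‖c n‖ ^ 2 / 2 * Real.exp (-((T * Real.log n - T * Real.log m) ^ 2 / 4)) +
          ‖c m‖ ^ 2 / 2 * Real.exp (-((T * Real.log m - T * Real.log n) ^ 2 / 4)) := by
      intro n _ m _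
      have e1 : (T * Real.log m - T * Real.log n) ^ 2 = (T * Real.log n - T * Real.log m) ^ 2 := by
        ring
      rw [e1, ← add_mul]
      refine mul_le_mul_of_nonneg_right ?_ (Real.exp_pos _).le
      nlinarith [sq_nonneg (‖c n‖ - ‖c m‖)]
    have h8 : W ≤ ∑ n ∈ s, ∑ m ∈ s,
        (‖c n‖ ^ 2 / 2 * Real.exp (-((T * Real.log n - T * Real.log m) ^ 2 / 4)) +
          ‖c m‖ ^ 2 / 2 * Real.exp (-((T * Real.log m - T * Real.log n) ^ 2 / 4))) :=
      Finset.sum_le_sum fun n hn => Finset.sum_le_sum fun m hm => h7 n hn m hm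
    refine h8.trans ?_
    have h9 : ∑ n ∈ s, ∑ m ∈ s, ‖c n‖ ^ 2 / 2 *
        Real.exp (-((T * Real.log n - T * Real.log m) ^ 2 / 4)) ≤
        (Real.exp 1 * Z1) * ((∑ n ∈ s, ‖c n‖ ^ 2) / 2) := by
      rw [Finset.sum_div, Finset.mul_sum]
      refine Finset.sum_le_sum fun n hn => ?_
      rw [← Finset.mul_sum, mul_comm]
      exact mul_le_mul_of_nonneg_right (row hq hT hs hn) (by positivity)
    simp_rw [Finset.sum_add_distrib]
    have h10 : ∑ n ∈ s, ∑ m ∈ s, ‖c m‖ ^ 2 / 2 *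
        Real.exp (-((T * Real.log m - T * Real.log n) ^ 2 / 4)) =
        ∑ n ∈ s, ∑ m ∈ s, ‖c n‖ ^ 2 / 2 *
          Real.exp (-((T * Real.log n - T * Real.log m) ^ 2 / 4)) := Finset.sum_comm
    rw [h10]
    linarith
  rw [h1]
  have hp : 0 < Real.sqrt Real.pi := Real.sqrt_pos.2 Real.pi_pos
  calc T * ∫ u in (-1 : ℝ)..1, g u ≤ T * (2 * (Real.exp 1 * (Real.sqrt Real.pi * W))) :=
        mul_le_mul_of_nonneg_left h3 hT.le
    _ ≤ T * (2 * (Real.exp 1 * (Real.sqrt Real.pi * (Real.exp 1 * Z1 * ∑ n ∈ s, ‖c n‖ ^ 2)))) := by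
        gcongr
    _ = _ := by unfold C6; ring

/-- **The hybrid mean value theorem.** -/
theorem hybrid {q : ℕ} [NeZero q] {T : ℝ} (hT : 0 < T) {s : Finset ℕ}
    (hs : ∀ n ∈ s, n ≠ 0 ∧ (n : ℝ) ≤ q * T) (c : ℕ → ℂ) :
    ∑ ψ : DirichletCharacter ℂ q, ∫ t in (-T)..T,
      ‖∑ n ∈ s, c n * (ψ (n : ZMod q) * EB.ch (Real.log n) t)‖ ^ 2 ≤
      C6 * q.totient * T * ∑ n ∈ s, ‖c n‖ ^ 2 := by
  classical
  have hq : 0 < q := Nat.pos_of_ne_zero (NeZero.ne q)
  have hcont : ∀ ψ : DirichletCharacter ℂ q, Continuous fun t =>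
      ‖∑ n ∈ s, c n * (ψ (n : ZMod q) * EB.ch (Real.log n) t)‖ ^ 2 := fun ψ =>
    (continuous_finsetSum _ fun n _ => continuous_const.mul
      (continuous_const.mul (EB.cont_ch _))).norm.pow 2
  rw [← intervalIntegral.integral_finsetSum fun ψ _ => (hcont ψ).intervalIntegrable _ _]
  set S : ZMod q → Finset ℕ := fun a => s.filter fun n => ((n : ℕ) : ZMod q) = a with hS
  have hcont2 : ∀ a : ZMod q, Continuous fun t =>
      ‖∑ n ∈ S a, c n * EB.ch (Real.log n) t‖ ^ 2 := fun a =>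
    (continuous_finsetSum _ fun n _ => continuous_const.mul (EB.cont_ch _)).norm.pow 2
  have h1 : ∀ t : ℝ, ∑ ψ : DirichletCharacter ℂ q,
      ‖∑ n ∈ s, c n * (ψ (n : ZMod q) * EB.ch (Real.log n) t)‖ ^ 2 ≤
      q.totient * ∑ a : ZMod q, ‖∑ n ∈ S a, c n * EB.ch (Real.log n) t‖ ^ 2 := by
    intro t
    refine le_trans (le_of_eq ?_) (parseval fun a => ∑ n ∈ S a, c n * EB.ch (Real.log n) t)
    refine Finset.sum_congr rfl fun ψ _ => ?_
    congr 2
    rw [← Finset.sum_fiberwise s (fun n : ℕ => ((n : ℕ) : ZMod q))]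
    refine Finset.sum_congr rfl fun a _ => ?_
    rw [Finset.sum_mul]
    refine Finset.sum_congr rfl fun n hn => ?_
    rw [(Finset.mem_filter.1 hn).2]
    ring
  have h2 : ∫ t in (-T)..T, ∑ ψ : DirichletCharacter ℂ q,
      ‖∑ n ∈ s, c n * (ψ (n : ZMod q) * EB.ch (Real.log n) t)‖ ^ 2 ≤
      ∫ t in (-T)..T, q.totient * ∑ a : ZMod q, ‖∑ n ∈ S a, c n * EB.ch (Real.log n) t‖ ^ 2 := by
    refine intervalIntegral.integral_mono_on (by linarith)
      ((continuous_finsetSum _ fun ψ _ => hcont ψ).intervalIntegrable _ _)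
      ((continuous_const.mul (continuous_finsetSum _ fun a _ => hcont2 a)).intervalIntegrable _ _)
      fun t _ => h1 t
  refine h2.trans ?_
  rw [intervalIntegral.integral_const_mul,
    intervalIntegral.integral_finsetSum fun a _ => (hcont2 a).intervalIntegrable _ _]
  have h3 : ∑ a : ZMod q, ∫ t in (-T)..T, ‖∑ n ∈ S a, c n * EB.ch (Real.log n) t‖ ^ 2 ≤
      ∑ a : ZMod q, C6 * T * ∑ n ∈ S a, ‖c n‖ ^ 2 := by
    refine Finset.sum_le_sum fun a _ => one_class hq hT (a := a) (fun n hn => ?_) c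
    obtain ⟨h4, h5⟩ := Finset.mem_filter.1 hn
    exact ⟨Nat.pos_of_ne_zero (hs n h4).1, (hs n h4).2, h5⟩
  rw [← Finset.mul_sum, Finset.sum_fiberwise s (fun n : ℕ => ((n : ℕ) : ZMod q))] at h3
  calc (q.totient : ℝ) * ∑ a : ZMod q, ∫ t in (-T)..T, ‖∑ n ∈ S a, c n * EB.ch (Real.log n) t‖ ^ 2
      ≤ q.totient * (C6 * T * ∑ n ∈ s, ‖c n‖ ^ 2) :=
        mul_le_mul_of_nonneg_left h3 (Nat.cast_nonneg _)
    _ = _ := by ring

end Pool.Agent.X280.HY
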