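import Pool.Agent.X280.HY.Comb
import Pool.Agent.X280.EB.Log

/-! Large deviations of the logarithm of an Euler product in a quasi-orthogonal family. -/

set_option autoImplicit false

namespace Pool.Agent.X280.HY

open Finset MeasureTheory
open scoped ENNReal

/-- the constant -/
noncomputable def C5 : ℝ := 12 * Real.log 4 + 2 * (Real.exp 1 * C0) + EB.C2

theorem C5_nonneg : 0 ≤ C5 := by
  have h1 := one_le_C0
  have h2 := EB.C2_nonneg
  have h3 : 0 ≤ Real.log 4 := Real.log_nonneg (by norm_num)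
  unfold C5
  positivity

/-- the primes as natural numbers -/
def emb : Nat.Primes ↪ ℕ := ⟨fun p => (p : ℕ), Nat.Primes.coe_nat_injective⟩

theorem ch_zero (l : ℝ) : EB.ch l 0 = 1 := by
  unfold EB.ch
  simp

section
variable {Ω : Type} [MeasurableSpace Ω] {μ : Measure Ω} {χ : ℕ → Ω → ℂ} {X D : ℝ}

theorem log_bound [SFinite μ] (h : QO μ χ X D) (hX : 1 < X) {m : ℕ}
    (HX : ((2 : ℝ) ^ m) ^ 2 * ((2 : ℝ) ^ m) ^ (3 * 2 ^ m) * Real.exp ((2 : ℝ) ^ m) ≤ X ^ (1 / 4 : ℝ))
    (h0 : ((2 : ℝ) ^ m) ^ 2 ≤ yy X m 0) {r : ℕ} (hr : 1 ≤ r) {x : ℕ → Fin r → ℂ}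
    (hx : ∀ p : ℕ, p.Prime → ∀ j, ‖x p j‖ ≤ 1) :
    ∃ E : Set Ω, MeasurableSet E ∧ μ E ≤ ENNReal.ofReal (10 * D * Real.exp (-(2 : ℝ) ^ m)) ∧
      ∀ ω, ω ∉ E → ∀ ε : ℝ, 1 / Real.log X ≤ ε →
        ‖EB.LG (fun p j => x p j * χ p ω) ε 0‖ ≤
          r * (Real.log (2 + 2 * Real.log ((2 : ℝ) ^ m)) + C5) := by
  classical
  have hX0 : 0 < X := by linarith
  have hr0 : (0 : ℝ) < r := by exact_mod_cast hr
  set b : ℕ → ℂ := fun p => EB.tr x p / p with hbd
  have hb : ∀ p : ℕ, p.Prime → ‖b p‖ ≤ (r : ℝ) / p := by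
    intro p hp
    simp only [hbd]
    rw [norm_div, Complex.norm_natCast]
    exact div_le_div_of_nonneg_right (EB.norm_tr hx hp) (Nat.cast_nonneg p)
  obtain ⟨E, hE1, hE2, hE3⟩ := comb h hX.le HX h0 hr0 hb
  refine ⟨E, hE1, hE2, ?_⟩
  intro ω hω ε hε
  have hlX : 0 < Real.log X := Real.log_pos hX
  have hε0 : 0 < ε := lt_of_lt_of_le (by positivity) hε
  set y : ℕ → Fin r → ℂ := fun p j => x p j * χ p ω with hy
  have hy1 : ∀ p : ℕ, p.Prime → ∀ j, ‖y p j‖ ≤ 1 := fun p hp j => by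
    simp only [hy]
    rw [norm_mul]
    exact mul_le_one₀ (hx p hp j) (norm_nonneg _) (h.le_one p ω)
  rw [EB.LG_eq hy1 hε0 0]
  have hRR := EB.RR_le hy1 hε0.le 0
  have hlk : 0 ≤ Real.log ((2 : ℝ) ^ m) := Real.log_nonneg (one_le_pow₀ (by norm_num))
  have hl4 : 0 ≤ Real.log 4 := Real.log_nonneg (by norm_num)
  have hC0 := one_le_C0
  have hfn : ∀ p : ℕ, p.Prime → ‖EB.tr y p * (((p : ℝ) ^ (-(1 + ε)) : ℝ) : ℂ) *
      EB.ch (Real.log p) 0‖ ≤ r * (p : ℝ) ^ (-(1 + ε)) := fun p hp => by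
    rw [norm_mul, norm_mul, EB.norm_ch, mul_one, Complex.norm_real, Real.norm_eq_abs,
      abs_of_nonneg (by positivity)]
    exact mul_le_mul_of_nonneg_right (EB.norm_tr hy1 hp) (by positivity)
  set f : ℕ → ℂ := fun p => EB.tr y p * (((p : ℝ) ^ (-(1 + ε)) : ℝ) : ℂ) *
      EB.ch (Real.log p) 0 with hf
  have hsum : HasSum (fun p : Nat.Primes => f p) (EB.PP (EB.tr y) ε 0) :=
    ((EB.summable_a hε0 (fun p hp => EB.norm_tr hy1 hp) 0).of_norm).hasSum
  have hPP : ‖EB.PP (EB.tr y) ε 0‖ ≤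
      r * (Real.log (2 + 2 * Real.log ((2 : ℝ) ^ m)) + 12 * Real.log 4 +
        2 * (Real.exp 1 * C0)) := by
    have hmap : ∀ T : Finset Nat.Primes, ∑ p ∈ T, f p = ∑ n ∈ T.map emb, f n :=
      fun T => by rw [Finset.sum_map]; rfl
    have hprime : ∀ T : Finset Nat.Primes, ∀ n ∈ T.map emb, n.Prime := by
      intro T n hn
      obtain ⟨p, -, rfl⟩ := Finset.mem_map.1 hn
      exact p.2
    rcases le_or_gt ε 1 with h1 | h1
    · refine le_of_tendsto hsum.norm ?_
      filter_upwards [Filter.eventually_ge_atTop ((PX X).subtype Nat.Prime)] with T hT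
      rw [hmap]
      set U : Finset ℕ := T.map emb with hU
      have hUp := hprime T
      rw [← Finset.sum_filter_add_sum_filter_not U (fun n : ℕ => (n : ℝ) ≤ X)]
      have e1 : U.filter (fun n : ℕ => (n : ℝ) ≤ X) = PX X := by
        ext n
        rw [Finset.mem_filter, mem_PX hX0.le]
        constructor
        · rintro ⟨h2, h3⟩
          exact ⟨hUp n h2, h3⟩
        · rintro ⟨h2, h3⟩
          refine ⟨?_, h3⟩
          rw [hU, Finset.mem_map]
          refine ⟨⟨n, h2⟩, hT ?_, rfl⟩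
          rw [Finset.mem_subtype]
          exact (mem_PX hX0.le).2 ⟨h2, h3⟩
      rw [e1]
      have e2 : ∑ p ∈ PX X, f p = SP χ b (PX X) ε ω := by
        unfold SP
        refine Finset.sum_congr rfl fun p hp => ?_
        have hpp : p.Prime := ((mem_PX hX0.le).1 hp).1
        have hp0 : (0 : ℝ) < p := by exact_mod_cast hpp.pos
        simp only [hf, hbd]
        rw [ch_zero, mul_one]
        have e3 : EB.tr y p = EB.tr x p * χ p ω := by
          unfold EB.tr
          rw [Finset.sum_mul]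
        have e4 : (p : ℝ) ^ (-(1 + ε)) = (p : ℝ)⁻¹ * (p : ℝ) ^ (-ε) := by
          rw [← Real.rpow_neg_one, ← Real.rpow_add hp0]
          congr 1
          ring
        rw [e3, e4]
        push_cast
        ring
      rw [e2]
      have h2 := hE3 ω hω ε hε0.le h1
      have h3 : ‖∑ p ∈ U.filter (fun p : ℕ => ¬ (p : ℝ) ≤ X), f p‖ ≤ r * (4 * Real.log 4) := by
        refine (norm_sum_le _ _).trans ?_
        refine (Finset.sum_le_sum fun p hp => hfn p (hUp p (Finset.mem_filter.1 hp).1)).trans ?_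
        rw [← Finset.mul_sum]
        refine mul_le_mul_of_nonneg_left ?_ hr0.le
        exact tail (fun p hp => hUp p (Finset.mem_filter.1 hp).1) hX
          (fun p hp => not_le.1 (Finset.mem_filter.1 hp).2) hε
      refine (norm_add_le _ _).trans ((add_le_add h2 h3).trans (le_of_eq ?_))
      have e5 : (1 : ℝ) + 2 * Real.log ((2 : ℝ) ^ m) + 1 = 2 + 2 * Real.log ((2 : ℝ) ^ m) := by ring
      rw [e5]
      ring
    · refine le_of_tendsto hsum.norm (Filter.Eventually.of_forall fun T => ?_)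
      rw [hmap]
      refine (norm_sum_le _ _).trans ((Finset.sum_le_sum fun p hp => hfn p (hprime T p hp)).trans ?_)
      rw [← Finset.mul_sum]
      refine mul_le_mul_of_nonneg_left ?_ hr0.le
      refine (fin_pr (hprime T) hε0).trans ?_
      have h2 : 1 + 1 / ε ≤ 2 + 2 * Real.log ((2 : ℝ) ^ m) := by
        have : 1 / ε ≤ 1 := (div_le_one hε0).2 h1.le
        linarith
      have h3 := Real.log_le_log (by positivity) h2
      have h4 : 0 ≤ 2 * (Real.exp 1 * C0) := by positivity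
      linarith
  refine (norm_add_le _ _).trans ((add_le_add hPP hRR).trans (le_of_eq ?_))
  unfold C5
  ring

/-- **Large deviations.** -/
theorem large_dev [SFinite μ] (h : QO μ χ X D) (hX1 : 1 < X) {r : ℕ} {x : ℕ → Fin r → ℂ}
    (hx : ∀ p : ℕ, p.Prime → ∀ j, ‖x p j‖ ≤ 1) {K : ℝ} (hK : 3 ≤ K)
    (hKX : 80 * (K * Real.log K) ≤ Real.log X) :
    ∃ E : Set Ω, MeasurableSet E ∧ μ E ≤ ENNReal.ofReal (10 * D * Real.exp (-K)) ∧
      ∀ ω, ω ∉ E → ∀ ε : ℝ, 1 / Real.log X ≤ ε →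
        ‖EB.LG (fun p j => x p j * χ p ω) ε 0‖ ≤ r * (Real.log (Real.log K) + (C5 + 2)) := by
  rcases Nat.eq_zero_or_pos r with hr | hr
  · subst hr
    refine ⟨∅, MeasurableSet.empty, by simp, fun ω _ ε _ => ?_⟩
    unfold EB.LG
    simp
  have hK0 : 0 < K := by linarith
  have hlK : 1 ≤ Real.log K := by
    rw [Real.le_log_iff_exp_le hK0]
    have := Real.exp_one_lt_d9
    linarith
  have hlX : 0 < Real.log X := by nlinarith
  obtain ⟨n, hn1, hn2⟩ := exists_nat_pow_near (x := K) (y := 2) (by linarith) (by norm_num)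
  set m := n + 1 with hm
  set k : ℝ := (2 : ℝ) ^ m with hk
  have hk2 : k ≤ 2 * K := by
    rw [hk, hm, pow_succ]
    linarith
  have hkK : K ≤ k := hn2.le
  have hk0 : 0 < k := by positivity
  have hlk : 1 ≤ Real.log k := hlK.trans (Real.log_le_log hK0 hkK)
  have hlk2 : Real.log k ≤ 2 * Real.log K := by
    have h1 : Real.log k ≤ Real.log (K ^ 2) := Real.log_le_log hk0 (by nlinarith)
    rw [Real.log_pow K 2] at h1
    push_cast at h1
    exact h1
  have hX0 : 0 < X := by linarith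
  have HX : k ^ 2 * k ^ (3 * 2 ^ m) * Real.exp k ≤ X ^ (1 / 4 : ℝ) := by
    have e1 : k ^ 2 * k ^ (3 * 2 ^ m) * Real.exp k =
        Real.exp (2 * Real.log k + 3 * k * Real.log k + k) := by
      rw [Real.exp_add, Real.exp_add]
      congr 2
      · rw [two_mul, Real.exp_add, Real.exp_log hk0, sq]
      · rw [← Real.rpow_natCast, Real.rpow_def_of_pos hk0]
        congr 1
        push_cast
        rw [← hk]
        ring
    have e2 : X ^ (1 / 4 : ℝ) = Real.exp (Real.log X * (1 / 4)) := Real.rpow_def_of_pos hX0 _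
    rw [e1, e2, Real.exp_le_exp]
    have h1 : k * Real.log k ≤ (2 * K) * (2 * Real.log K) :=
      mul_le_mul hk2 hlk2 (by linarith) (by linarith)
    have h2 : 2 * Real.log k ≤ k * Real.log k :=
      mul_le_mul_of_nonneg_right (by linarith) (by linarith)
    have h3 : k ≤ k * Real.log k := le_mul_of_one_le_right hk0.le hlk
    nlinarith
  have h0 : k ^ 2 ≤ yy X m 0 := by
    unfold yy
    rw [← hk, pow_zero]
    have hk1 : 1 ≤ k := by linarith
    have h1 : (k ^ 2) ^ (2 ^ m) ≤ X := by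
      have h2 : (k ^ 2) ^ (2 ^ m) ≤ k ^ 2 * k ^ (3 * 2 ^ m) * Real.exp k := by
        have h3 : (k ^ 2) ^ (2 ^ m) ≤ k ^ (3 * 2 ^ m) := by
          rw [← pow_mul]
          exact pow_le_pow_right₀ hk1 (by nlinarith [Nat.one_le_two_pow (n := m)])
        have h4 : 1 ≤ k ^ 2 * Real.exp k := by
          have := Real.one_le_exp hk0.le
          have h5 : 1 ≤ k ^ 2 := one_le_pow₀ hk1
          nlinarith
        calc (k ^ 2) ^ (2 ^ m) ≤ k ^ (3 * 2 ^ m) := h3
          _ ≤ k ^ (3 * 2 ^ m) * (k ^ 2 * Real.exp k) := le_mul_of_one_le_right (by positivity) h4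
          _ = _ := by ring
      refine h2.trans (HX.trans ?_)
      calc X ^ (1 / 4 : ℝ) ≤ X ^ (1 : ℝ) := Real.rpow_le_rpow_of_exponent_le hX1.le (by norm_num)
        _ = X := Real.rpow_one X
    have h2 : k ^ 2 = ((k ^ 2) ^ (2 ^ m)) ^ (1 / k) := by
      rw [← Real.rpow_natCast (k ^ 2) (2 ^ m), ← Real.rpow_mul (by positivity)]
      push_cast
      rw [← hk, mul_one_div_cancel hk0.ne', Real.rpow_one]
    rw [h2]
    exact Real.rpow_le_rpow (by positivity) h1 (by positivity)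
  obtain ⟨E, hE1, hE2, hE3⟩ := log_bound h hX1 HX h0 hr hx
  refine ⟨E, hE1, hE2.trans (ENNReal.ofReal_le_ofReal ?_), fun ω hω ε hε => ?_⟩
  · have : Real.exp (-k) ≤ Real.exp (-K) := Real.exp_le_exp.2 (by linarith)
    exact mul_le_mul_of_nonneg_left this (by have := h.nonneg; positivity)
  · refine (hE3 ω hω ε hε).trans (mul_le_mul_of_nonneg_left ?_ (Nat.cast_nonneg r))
    have h1 : 2 + 2 * Real.log k ≤ 6 * Real.log K := by linarith
    have h2 := Real.log_le_log (by linarith) h1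
    rw [Real.log_mul (by norm_num) (by linarith)] at h2
    have h3 : Real.log 6 ≤ 2 := by
      rw [Real.log_le_iff_le_exp (by norm_num)]
      have h4 : Real.exp 2 = Real.exp 1 ^ 2 := by rw [← Real.exp_nat_mul]; norm_num
      have := Real.exp_one_gt_d9
      rw [h4]
      nlinarith
    linarith

end

end Pool.Agent.X280.HY
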