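import Mathlib

/-! High moments of sums over primes in a quasi-orthogonal family of completely multiplicative
functions. -/

set_option autoImplicit false

namespace Pool.Agent.X280.HY

open Finset MeasureTheory
open scoped ENNReal

/-- Two tuples with sorted versions equal differ by a permutation. -/
theorem exists_perm {k : ℕ} {f g : Fin k → ℕ} (hf : ∀ i, (f i).Prime) (hg : ∀ i, (g i).Prime)
    (h : ∏ i, f i = ∏ i, g i) : ∃ σ : Equiv.Perm (Fin k), f = g ∘ σ := by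
  have h1 : (List.ofFn f).Perm (List.ofFn g) := by
    refine perm_of_prod_eq_prod ?_ ?_ ?_
    · rw [List.prod_ofFn, List.prod_ofFn, h]
    · intro p hp
      obtain ⟨i, rfl⟩ := (List.mem_ofFn' f p).1 hp
      exact (hf i).prime
    · intro p hp
      obtain ⟨i, rfl⟩ := (List.mem_ofFn' g p).1 hp
      exact (hg i).prime
  have h2 : f ∘ Tuple.sort f = g ∘ Tuple.sort g := by
    refine List.ofFn_injective ?_
    exact ((((Tuple.sort f).ofFn_comp_perm f).trans h1).trans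
      ((Tuple.sort g).ofFn_comp_perm g).symm).eq_of_pairwise'
      (Tuple.monotone_sort f).sortedLE_ofFn.pairwise (Tuple.monotone_sort g).sortedLE_ofFn.pairwise
  refine ⟨(Tuple.sort f).symm.trans (Tuple.sort g), ?_⟩
  funext i
  have := congrFun h2 ((Tuple.sort f).symm i)
  simpa using this

/-- A quasi-orthogonal family of completely multiplicative functions of length `X`. -/
structure QO {Ω : Type} [MeasurableSpace Ω] (μ : Measure Ω) (χ : ℕ → Ω → ℂ) (X D : ℝ) : Prop where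
  /-- measurability -/
  meas : ∀ n, Measurable (χ n)
  /-- the values are bounded by one -/
  le_one : ∀ n ω, ‖χ n ω‖ ≤ 1
  /-- the value at one -/
  one : ∀ ω, χ 1 ω = 1
  /-- complete multiplicativity -/
  mul : ∀ m n ω, m ≠ 0 → n ≠ 0 → χ (m * n) ω = χ m ω * χ n ω
  /-- the constant -/
  nonneg : 0 ≤ D
  /-- quasi-orthogonality -/
  orth : ∀ (s : Finset ℕ) (c : ℕ → ℂ), (∀ n ∈ s, n ≠ 0 ∧ (n : ℝ) ≤ X) →
    ∫⁻ ω, ENNReal.ofReal (‖∑ n ∈ s, c n * χ n ω‖ ^ 2) ∂μ ≤ ENNReal.ofReal (D * ∑ n ∈ s, ‖c n‖ ^ 2)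

section
variable {Ω : Type} [MeasurableSpace Ω] {μ : Measure Ω} {χ : ℕ → Ω → ℂ} {X D : ℝ}

theorem QO.prod (h : QO μ χ X D) {k : ℕ} (f : Fin k → ℕ) (hf : ∀ i, f i ≠ 0) (ω : Ω) :
    χ (∏ i, f i) ω = ∏ i, χ (f i) ω := by
  classical
  have : ∀ s : Finset (Fin k), χ (∏ i ∈ s, f i) ω = ∏ i ∈ s, χ (f i) ω := by
    intro s
    induction s using Finset.induction_on with
    | empty => simpa using h.one ω
    | insert a s ha ih =>
      rw [Finset.prod_insert ha, Finset.prod_insert ha, h.mul _ _ _ (hf a)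
        (Finset.prod_ne_zero_iff.2 fun i _ => hf i), ih]
  exact this univ

theorem card_fiber {k : ℕ} (I : Finset ℕ) (hI : ∀ p ∈ I, p.Prime) (n : ℕ) :
    (((Fintype.piFinset fun _ : Fin k => I).filter fun f => ∏ i, f i = n).card) ≤
      k.factorial := by
  classical
  rcases ((Fintype.piFinset fun _ : Fin k => I).filter fun f => ∏ i, f i = n).eq_empty_or_nonempty
    with h | ⟨g, hg⟩
  · rw [h, Finset.card_empty]; exact Nat.zero_le _
  obtain ⟨hg1, hg2⟩ := Finset.mem_filter.1 hg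
  have hgp : ∀ i, (g i).Prime := fun i => hI _ (Fintype.mem_piFinset.1 hg1 i)
  have hsub : ((Fintype.piFinset fun _ : Fin k => I).filter fun f => ∏ i, f i = n) ⊆
      (Finset.univ : Finset (Equiv.Perm (Fin k))).image (fun σ : Equiv.Perm (Fin k) => g ∘ ⇑σ) := by
    intro f hf
    obtain ⟨hf1, hf2⟩ := Finset.mem_filter.1 hf
    obtain ⟨σ, hσ⟩ := exists_perm (fun i => hI _ (Fintype.mem_piFinset.1 hf1 i)) hgp
      (hf2.trans hg2.symm)
    exact Finset.mem_image.2 ⟨σ, Finset.mem_univ _, hσ.symm⟩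
  refine (Finset.card_le_card hsub).trans (Finset.card_image_le.trans (le_of_eq ?_))
  rw [Finset.card_univ, Fintype.card_perm, Fintype.card_fin]

/-- **The moments.** -/
theorem QO.moment (h : QO μ χ X D) (I : Finset ℕ) (hI : ∀ p ∈ I, p.Prime) (k : ℕ) (_hk : 1 ≤ k)
    (hX : ∀ p ∈ I, (p : ℝ) ^ k ≤ X) (b : ℕ → ℂ) :
    ∫⁻ ω, ENNReal.ofReal (‖∑ p ∈ I, b p * χ p ω‖ ^ (2 * k)) ∂μ ≤
      ENNReal.ofReal (D * (k.factorial * (∑ p ∈ I, ‖b p‖ ^ 2) ^ k)) := by
  classical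
  set P := Fintype.piFinset fun _ : Fin k => I with hP
  set s : Finset ℕ := P.image fun f => ∏ i, f i with hs
  set c : ℕ → ℂ := fun n => ∑ f ∈ P with ∏ i, f i = n, ∏ i, b (f i) with hc
  have hexp : ∀ ω, (∑ p ∈ I, b p * χ p ω) ^ k = ∑ n ∈ s, c n * χ n ω := by
    intro ω
    rw [Finset.sum_pow', ← Finset.sum_fiberwise_of_maps_to
      (t := s) (g := fun f : Fin k → ℕ => ∏ i, f i) (fun f hf => Finset.mem_image_of_mem _ hf)]
    refine Finset.sum_congr rfl fun n _ => ?_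
    rw [hc, Finset.sum_mul]
    refine Finset.sum_congr rfl fun f hf => ?_
    obtain ⟨hf1, hf2⟩ := Finset.mem_filter.1 hf
    rw [Finset.prod_mul_distrib, ← h.prod f (fun i => (hI _ (Fintype.mem_piFinset.1 hf1 i)).ne_zero),
      hf2]
  have hsX : ∀ n ∈ s, n ≠ 0 ∧ (n : ℝ) ≤ X := by
    intro n hn
    obtain ⟨f, hf, rfl⟩ := Finset.mem_image.1 hn
    have hfI := Fintype.mem_piFinset.1 hf
    refine ⟨Finset.prod_ne_zero_iff.2 fun i _ => (hI _ (hfI i)).ne_zero, ?_⟩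
    push_cast
    obtain ⟨i₀, -, hi₀⟩ := Finset.exists_max_image (univ : Finset (Fin k)) (fun i => f i)
      ⟨⟨0, by omega⟩, Finset.mem_univ _⟩
    calc ∏ i, ((f i : ℕ) : ℝ) ≤ ∏ _i : Fin k, ((f i₀ : ℕ) : ℝ) :=
          Finset.prod_le_prod (fun i _ => Nat.cast_nonneg _)
            fun i hi => by exact_mod_cast hi₀ i hi
      _ = ((f i₀ : ℕ) : ℝ) ^ k := by rw [Finset.prod_const, Finset.card_univ, Fintype.card_fin]
      _ ≤ X := hX _ (hfI i₀)
  have hcs : ∑ n ∈ s, ‖c n‖ ^ 2 ≤ k.factorial * (∑ p ∈ I, ‖b p‖ ^ 2) ^ k := by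
    have h1 : ∀ n ∈ s, ‖c n‖ ^ 2 ≤ k.factorial * ∑ f ∈ P with ∏ i, f i = n, ∏ i, ‖b (f i)‖ ^ 2 := by
      intro n _
      have h2 : ‖c n‖ ≤ ∑ f ∈ P with ∏ i, f i = n, ∏ i, ‖b (f i)‖ := by
        refine (norm_sum_le _ _).trans (le_of_eq (Finset.sum_congr rfl fun f _ => ?_))
        rw [norm_prod]
      have h3 : (∑ f ∈ P with ∏ i, f i = n, ∏ i, ‖b (f i)‖) ^ 2 ≤
          ((P.filter fun f => ∏ i, f i = n).card : ℝ) *
            ∑ f ∈ P with ∏ i, f i = n, (∏ i, ‖b (f i)‖) ^ 2 := sq_sum_le_card_mul_sum_sq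
      refine (pow_le_pow_left₀ (norm_nonneg _) h2 2).trans (h3.trans ?_)
      simp_rw [← Finset.prod_pow]
      refine mul_le_mul_of_nonneg_right ?_ (Finset.sum_nonneg fun f _ =>
        Finset.prod_nonneg fun i _ => by positivity)
      exact_mod_cast card_fiber I hI n
    refine (Finset.sum_le_sum h1).trans (le_of_eq ?_)
    rw [← Finset.mul_sum, Finset.sum_fiberwise_of_maps_to
      (t := s) (g := fun f : Fin k → ℕ => ∏ i, f i) (fun f hf => Finset.mem_image_of_mem _ hf),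
      Finset.sum_pow']
  have h4 := h.orth s c hsX
  have h5 : ∀ ω, ‖∑ p ∈ I, b p * χ p ω‖ ^ (2 * k) = ‖∑ n ∈ s, c n * χ n ω‖ ^ 2 := fun ω => by
    rw [← hexp, norm_pow, ← pow_mul, mul_comm]
  simp_rw [h5]
  exact h4.trans (ENNReal.ofReal_le_ofReal (mul_le_mul_of_nonneg_left hcs h.nonneg))

end

end Pool.Agent.X280.HY
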