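import Pool.Agent.X280.HY.Sup
import Pool.Agent.X280.EB.Radial

/-! Sums over primes. -/

set_option autoImplicit false

namespace Pool.Agent.X280.HY

open Finset

/-- the sum of `n^{-5/4}`, times `65`, plus one -/
noncomputable def C0 : ℝ := 65 * (∑' n : ℕ, (n : ℝ) ^ (-(5 / 4) : ℝ)) + 1

theorem summable54 : Summable fun n : ℕ => (n : ℝ) ^ (-(5 / 4) : ℝ) := by
  rw [Real.summable_nat_rpow]; norm_num

theorem one_le_C0 : 1 ≤ C0 := by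
  have : 0 ≤ ∑' n : ℕ, (n : ℝ) ^ (-(5 / 4) : ℝ) := tsum_nonneg fun n => by positivity
  unfold C0
  linarith

theorem variance {I : Finset ℕ} (hI : ∀ p ∈ I, p.Prime) {y : ℝ} (hy : 1 ≤ y)
    (hIy : ∀ p ∈ I, y < (p : ℝ)) {r : ℝ} (hr : 0 ≤ r) {b : ℕ → ℂ}
    (hb : ∀ p ∈ I, ‖b p‖ ≤ r / p) :
    ∑ p ∈ I, ‖b p‖ ^ 2 * (1 + Real.log p ^ 2) ≤ r ^ 2 * (C0 * y ^ (-(1 / 2) : ℝ)) := by
  have h1 : ∀ p ∈ I, ‖b p‖ ^ 2 * (1 + Real.log p ^ 2) ≤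
      r ^ 2 * (65 * (p : ℝ) ^ (-(5 / 4) : ℝ)) * y ^ (-(1 / 2) : ℝ) := by
    intro p hp
    have hp0 : (0 : ℝ) < p := by exact_mod_cast (hI p hp).pos
    have hp1 : (1 : ℝ) ≤ p := by exact_mod_cast (hI p hp).one_lt.le
    have h2 : Real.log p ≤ (p : ℝ) ^ (1 / 8 : ℝ) / (1 / 8) :=
      Real.log_le_rpow_div hp0.le (by norm_num)
    have h3 : Real.log p ^ 2 ≤ 64 * (p : ℝ) ^ (1 / 4 : ℝ) := by
      have h4 := pow_le_pow_left₀ (Real.log_nonneg hp1) h2 2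
      refine h4.trans (le_of_eq ?_)
      rw [div_pow, ← Real.rpow_natCast, ← Real.rpow_mul hp0.le]
      norm_num
      ring
    have h5 : (1 : ℝ) ≤ (p : ℝ) ^ (1 / 4 : ℝ) := Real.one_le_rpow hp1 (by norm_num)
    have h6 : 1 + Real.log p ^ 2 ≤ 65 * (p : ℝ) ^ (1 / 4 : ℝ) := by linarith
    have h7 : ‖b p‖ ^ 2 ≤ r ^ 2 * (p : ℝ) ^ (-2 : ℝ) := by
      have h8 := pow_le_pow_left₀ (norm_nonneg _) (hb p hp) 2
      refine h8.trans (le_of_eq ?_)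
      rw [div_pow, div_eq_mul_inv, Real.rpow_neg hp0.le]
      norm_num
    have h9 : (p : ℝ) ^ (-(1 / 2) : ℝ) ≤ y ^ (-(1 / 2) : ℝ) :=
      Real.rpow_le_rpow_of_nonpos (by linarith) (hIy p hp).le (by norm_num)
    have h10 : (p : ℝ) ^ (-2 : ℝ) * (65 * (p : ℝ) ^ (1 / 4 : ℝ)) =
        65 * (p : ℝ) ^ (-(5 / 4) : ℝ) * (p : ℝ) ^ (-(1 / 2) : ℝ) := by
      have e1 : (p : ℝ) ^ (-2 : ℝ) * (p : ℝ) ^ (1 / 4 : ℝ) = (p : ℝ) ^ (-(7 / 4) : ℝ) := by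
        rw [← Real.rpow_add hp0]; norm_num
      have e2 : (p : ℝ) ^ (-(5 / 4) : ℝ) * (p : ℝ) ^ (-(1 / 2) : ℝ) = (p : ℝ) ^ (-(7 / 4) : ℝ) := by
        rw [← Real.rpow_add hp0]; norm_num
      calc _ = 65 * ((p : ℝ) ^ (-2 : ℝ) * (p : ℝ) ^ (1 / 4 : ℝ)) := by ring
        _ = 65 * ((p : ℝ) ^ (-(5 / 4) : ℝ) * (p : ℝ) ^ (-(1 / 2) : ℝ)) := by rw [e1, e2]
        _ = _ := by ring
    calc ‖b p‖ ^ 2 * (1 + Real.log p ^ 2)
        ≤ (r ^ 2 * (p : ℝ) ^ (-2 : ℝ)) * (65 * (p : ℝ) ^ (1 / 4 : ℝ)) :=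
          mul_le_mul h7 h6 (by positivity) (by positivity)
      _ = r ^ 2 * ((p : ℝ) ^ (-2 : ℝ) * (65 * (p : ℝ) ^ (1 / 4 : ℝ))) := by ring
      _ = r ^ 2 * (65 * (p : ℝ) ^ (-(5 / 4) : ℝ) * (p : ℝ) ^ (-(1 / 2) : ℝ)) := by rw [h10]
      _ ≤ r ^ 2 * (65 * (p : ℝ) ^ (-(5 / 4) : ℝ) * y ^ (-(1 / 2) : ℝ)) := by gcongr
      _ = _ := by ring
  refine (Finset.sum_le_sum h1).trans ?_
  rw [← Finset.sum_mul, ← Finset.mul_sum, ← Finset.mul_sum]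
  have h2 : ∑ p ∈ I, (p : ℝ) ^ (-(5 / 4) : ℝ) ≤ ∑' n : ℕ, (n : ℝ) ^ (-(5 / 4) : ℝ) :=
    summable54.sum_le_tsum _ fun _ _ => by positivity
  have hy0 : 0 ≤ y ^ (-(1 / 2) : ℝ) := by positivity
  have h3 : 65 * ∑ p ∈ I, (p : ℝ) ^ (-(5 / 4) : ℝ) ≤ C0 := by
    unfold C0; linarith
  calc r ^ 2 * (65 * ∑ p ∈ I, (p : ℝ) ^ (-(5 / 4) : ℝ)) * y ^ (-(1 / 2) : ℝ)
      ≤ r ^ 2 * C0 * y ^ (-(1 / 2) : ℝ) := by gcongr
    _ = _ := by ring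

theorem fin_pr {I : Finset ℕ} (hI : ∀ p ∈ I, p.Prime) {δ : ℝ} (hδ : 0 < δ) :
    ∑ p ∈ I, (p : ℝ) ^ (-(1 + δ)) ≤ Real.log (1 + 1 / δ) := by
  have h1 := EB.exp_pr δ hδ
  have h2 : ∑ p ∈ I, (p : ℝ) ^ (-(1 + δ)) ≤
      ∑' p : Nat.Primes, ((p : ℕ) : ℝ) ^ (-(1 + δ)) := by
    have h6 := (EB.summable_pr δ hδ).sum_le_tsum (f := fun p : Nat.Primes =>
      ((p : ℕ) : ℝ) ^ (-(1 + δ))) (I.subtype Nat.Prime) fun p _ => by positivity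
    refine le_trans (le_of_eq ?_) h6
    exact (Finset.sum_subtype_of_mem (p := Nat.Prime) (fun p : ℕ => (p : ℝ) ^ (-(1 + δ))) hI).symm
  refine h2.trans ?_
  rw [Real.le_log_iff_exp_le (by positivity)]
  exact h1

theorem fin_lw {I : Finset ℕ} (hI : ∀ p ∈ I, p.Prime) {δ : ℝ} (hδ : 0 < δ) (hδ1 : δ ≤ 1) :
    ∑ p ∈ I, Real.log p * (p : ℝ) ^ (-(1 + δ)) ≤ 4 * Real.log 4 / δ := by
  refine le_trans (le_of_eq (Finset.sum_congr rfl fun p hp => ?_)) (EB.lw_sum hδ hδ1 I)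
  unfold EB.lw
  rw [if_pos (hI p hp)]

theorem exp_le_two {x : ℝ} (h0 : 0 ≤ x) (h1 : x ≤ 1) : Real.exp x ≤ 1 + 2 * x := by
  have h2 := Real.exp_bound' h0 h1 (n := 2) (by norm_num)
  norm_num [Finset.sum_range_succ] at h2
  nlinarith

/-- Mertens -/
theorem mertens {I : Finset ℕ} (hI : ∀ p ∈ I, p.Prime) {L : ℝ} (hL : 1 ≤ L)
    (hIL : ∀ p ∈ I, Real.log p ≤ L) :
    ∑ p ∈ I, (p : ℝ)⁻¹ ≤ Real.log (1 + L) + 8 * Real.log 4 := by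
  set δ : ℝ := 1 / L with hδd
  have hL0 : 0 < L := by linarith
  have hδ : 0 < δ := by positivity
  have hδ1 : δ ≤ 1 := by rw [hδd, div_le_one hL0]; exact hL
  have h1 : ∀ p ∈ I, (p : ℝ)⁻¹ ≤ (p : ℝ) ^ (-(1 + δ)) +
      2 * δ * (Real.log p * (p : ℝ) ^ (-(1 + δ))) := by
    intro p hp
    have hp0 : (0 : ℝ) < p := by exact_mod_cast (hI p hp).pos
    have hp1 : (1 : ℝ) ≤ p := by exact_mod_cast (hI p hp).one_lt.le
    have h2 : (p : ℝ)⁻¹ = (p : ℝ) ^ (-(1 + δ)) * Real.exp (δ * Real.log p) := by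
      rw [mul_comm δ, ← Real.rpow_def_of_pos hp0, ← Real.rpow_add hp0, ← Real.rpow_neg_one]
      congr 1
      ring
    have h3 : δ * Real.log p ≤ 1 := by
      rw [hδd, one_div, inv_mul_le_iff₀ hL0, mul_one]
      exact hIL p hp
    have h4 := exp_le_two (mul_nonneg hδ.le (Real.log_nonneg hp1)) h3
    rw [h2]
    calc (p : ℝ) ^ (-(1 + δ)) * Real.exp (δ * Real.log p)
        ≤ (p : ℝ) ^ (-(1 + δ)) * (1 + 2 * (δ * Real.log p)) :=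
          mul_le_mul_of_nonneg_left h4 (by positivity)
      _ = _ := by ring
  refine (Finset.sum_le_sum h1).trans ?_
  rw [Finset.sum_add_distrib, ← Finset.mul_sum]
  have h2 := fin_pr hI hδ
  have h3 := fin_lw hI hδ hδ1
  have h4 : 2 * δ * ∑ p ∈ I, Real.log p * (p : ℝ) ^ (-(1 + δ)) ≤ 2 * δ * (4 * Real.log 4 / δ) :=
    mul_le_mul_of_nonneg_left h3 (by positivity)
  have h5 : 2 * δ * (4 * Real.log 4 / δ) = 8 * Real.log 4 := by field_simp; ring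
  have h6 : 1 / δ = L := by rw [hδd]; field_simp
  rw [h6] at h2
  linarith

/-- the tail -/
theorem tail {I : Finset ℕ} (hI : ∀ p ∈ I, p.Prime) {X ε : ℝ} (hX : 1 < X)
    (hIX : ∀ p ∈ I, X < (p : ℝ)) (hε : 1 / Real.log X ≤ ε) :
    ∑ p ∈ I, (p : ℝ) ^ (-(1 + ε)) ≤ 4 * Real.log 4 := by
  have hlX : 0 < Real.log X := Real.log_pos hX
  have hε0 : 0 < ε := lt_of_lt_of_le (by positivity) hε
  rcases le_total ε 1 with h | h
  · have h1 : ∀ p ∈ I, (p : ℝ) ^ (-(1 + ε)) ≤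
        (Real.log X)⁻¹ * (Real.log p * (p : ℝ) ^ (-(1 + ε))) := by
      intro p hp
      have h2 : Real.log X ≤ Real.log p := Real.log_le_log (by linarith) (hIX p hp).le
      rw [← mul_assoc]
      refine le_mul_of_one_le_left (by positivity) ?_
      rw [inv_mul_eq_div, one_le_div hlX]
      exact h2
    refine (Finset.sum_le_sum h1).trans ?_
    rw [← Finset.mul_sum]
    refine (mul_le_mul_of_nonneg_left (fin_lw hI hε0 h) (by positivity)).trans ?_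
    rw [inv_mul_eq_div, div_div, div_le_iff₀ (by positivity)]
    have h3 : 1 ≤ ε * Real.log X := by
      rw [div_le_iff₀ hlX] at hε
      exact hε
    have h4 : 0 ≤ 4 * Real.log 4 := by positivity
    nlinarith
  · refine (fin_pr hI hε0).trans ?_
    have h1 : 1 + 1 / ε ≤ 4 := by
      have : 1 / ε ≤ 1 := (div_le_one hε0).2 h
      linarith
    have h2 := Real.log_le_log (by positivity) h1
    have h4 : 0 ≤ Real.log 4 := by positivity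
    linarith

end Pool.Agent.X280.HY
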