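import Pool.Agent.X280.HY.Mom

/-! Suprema over the distance from the edge, and the exceptional set for one range of primes. -/

set_option autoImplicit false

namespace Pool.Agent.X280.HY

open Finset MeasureTheory
open scoped ENNReal

theorem young_nat {a b : ℝ} (ha : 0 ≤ a) (hb : 0 ≤ b) {k : ℕ} (hk : 1 ≤ k) :
    a ^ (2 * k - 1) * b ≤ a ^ (2 * k) + b ^ (2 * k) := by
  have e : 2 * k = (2 * k - 1) + 1 := by omega
  rcases le_total a b with h | h
  · have h1 : a ^ (2 * k - 1) * b ≤ b ^ (2 * k - 1) * b :=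
      mul_le_mul_of_nonneg_right (pow_le_pow_left₀ ha h _) hb
    rw [← pow_succ, ← e] at h1
    have : 0 ≤ a ^ (2 * k) := by positivity
    linarith
  · have h1 : a ^ (2 * k - 1) * b ≤ a ^ (2 * k - 1) * a :=
      mul_le_mul_of_nonneg_left h (by positivity)
    rw [← pow_succ, ← e] at h1
    have : 0 ≤ b ^ (2 * k) := by positivity
    linarith

/-- Sobolev. -/
theorem sup_pow {f g : ℝ → ℂ} (hf : ∀ u, HasDerivAt f (g u) u) (hg : Continuous g) {k : ℕ}
    (hk : 1 ≤ k) {x : ℝ} (h0 : 0 ≤ x) (h1 : x ≤ 1) :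
    ‖f x‖ ^ (2 * k) ≤ ‖f 1‖ ^ (2 * k) +
      2 * k * ∫ u in (0 : ℝ)..1, (‖f u‖ ^ (2 * k) + ‖g u‖ ^ (2 * k)) := by
  have hfc : Continuous f := continuous_iff_continuousAt.2 fun u => (hf u).continuousAt
  set F : ℝ → ℝ := fun u => (‖f u‖ ^ 2) ^ k with hF
  set F' : ℝ → ℝ := fun u => k * (‖f u‖ ^ 2) ^ (k - 1) * (2 * inner ℝ (f u) (g u)) with hF'
  have hd : ∀ u, HasDerivAt F (F' u) u := fun u => by
    have h2 := ((hf u).norm_sq).pow k
    refine h2.congr_deriv ?_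
    simp only [hF']
  have hc : Continuous F' := by
    simp only [hF']
    exact (continuous_const.mul ((hfc.norm.pow 2).pow _)).mul
      (continuous_const.mul (hfc.inner hg))
  set G : ℝ → ℝ := fun u => 2 * k * (‖f u‖ ^ (2 * k) + ‖g u‖ ^ (2 * k)) with hG
  have hGc : Continuous G := by
    simp only [hG]
    exact continuous_const.mul ((hfc.norm.pow _).add (hg.norm.pow _))
  have hle : ∀ u, |F' u| ≤ G u := by
    intro u
    simp only [hF', hG]
    rw [abs_mul, abs_mul, abs_mul, Nat.abs_cast, abs_of_nonneg (by positivity : (0 : ℝ) ≤ (‖f u‖ ^ 2) ^ (k - 1)),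
      abs_two]
    have h3 : |inner ℝ (f u) (g u)| ≤ ‖f u‖ * ‖g u‖ := abs_real_inner_le_norm _ _
    have h4 : (‖f u‖ ^ 2) ^ (k - 1) * (‖f u‖ * ‖g u‖) = ‖f u‖ ^ (2 * k - 1) * ‖g u‖ := by
      rw [← pow_mul, ← mul_assoc, ← pow_succ]
      congr 2
      omega
    calc (k : ℝ) * (‖f u‖ ^ 2) ^ (k - 1) * (2 * |inner ℝ (f u) (g u)|)
        ≤ k * (‖f u‖ ^ 2) ^ (k - 1) * (2 * (‖f u‖ * ‖g u‖)) := by gcongr
      _ = 2 * k * ((‖f u‖ ^ 2) ^ (k - 1) * (‖f u‖ * ‖g u‖)) := by ring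
      _ = 2 * k * (‖f u‖ ^ (2 * k - 1) * ‖g u‖) := by rw [h4]
      _ ≤ _ := mul_le_mul_of_nonneg_left (young_nat (norm_nonneg _) (norm_nonneg _) hk)
          (by positivity)
  have e1 : ∫ u in x..1, F' u = F 1 - F x :=
    intervalIntegral.integral_eq_sub_of_hasDerivAt (fun u _ => hd u) (hc.intervalIntegrable _ _)
  have e2 : ‖∫ u in x..1, F' u‖ ≤ ∫ u in x..1, G u :=
    intervalIntegral.norm_integral_le_of_norm_le h1
      (Filter.Eventually.of_forall fun u _ => by rw [Real.norm_eq_abs]; exact hle u)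
      (hGc.intervalIntegrable _ _)
  have e3 : ∫ u in x..1, G u ≤ ∫ u in (0 : ℝ)..1, G u := by
    rw [← intervalIntegral.integral_add_adjacent_intervals (hGc.intervalIntegrable 0 x)
      (hGc.intervalIntegrable x 1)]
    have : 0 ≤ ∫ u in (0 : ℝ)..x, G u :=
      intervalIntegral.integral_nonneg h0 fun u _ => by simp only [hG]; positivity
    linarith
  have e4 : ∫ u in (0 : ℝ)..1, G u =
      2 * k * ∫ u in (0 : ℝ)..1, (‖f u‖ ^ (2 * k) + ‖g u‖ ^ (2 * k)) := by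
    simp only [hG]
    rw [intervalIntegral.integral_const_mul]
  have e5 : F x = ‖f x‖ ^ (2 * k) := by simp only [hF]; rw [← pow_mul]
  have e6 : F 1 = ‖f 1‖ ^ (2 * k) := by simp only [hF]; rw [← pow_mul]
  rw [e1, Real.norm_eq_abs, abs_sub_comm] at e2
  have := (le_abs_self (F x - F 1)).trans (e2.trans e3)
  rw [← e5, ← e6, ← e4]
  linarith

section
variable {Ω : Type} [MeasurableSpace Ω] {μ : Measure Ω} {χ : ℕ → Ω → ℂ} {X D : ℝ}

/-- the sum over the primes in `I` -/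
noncomputable def SP (χ : ℕ → Ω → ℂ) (b : ℕ → ℂ) (I : Finset ℕ) (ε : ℝ) (ω : Ω) : ℂ :=
  ∑ p ∈ I, (b p * (((p : ℝ) ^ (-ε) : ℝ) : ℂ)) * χ p ω

/-- its derivative -/
noncomputable def SP' (χ : ℕ → Ω → ℂ) (b : ℕ → ℂ) (I : Finset ℕ) (ε : ℝ) (ω : Ω) : ℂ :=
  ∑ p ∈ I, (b p * ((-(Real.log p * (p : ℝ) ^ (-ε)) : ℝ) : ℂ)) * χ p ω

theorem deriv_pow {p : ℕ} (hp : p.Prime) (u : ℝ) :
    HasDerivAt (fun u : ℝ => (p : ℝ) ^ (-u)) (-(Real.log p * (p : ℝ) ^ (-u))) u := by
  have hp0 : (0 : ℝ) < p := by exact_mod_cast hp.pos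
  have h := (hasDerivAt_neg u).const_rpow hp0
  refine h.congr_deriv ?_
  ring

theorem SP_deriv {b : ℕ → ℂ} {I : Finset ℕ} (hI : ∀ p ∈ I, p.Prime) (ω : Ω) (u : ℝ) :
    HasDerivAt (fun u => SP χ b I u ω) (SP' χ b I u ω) u := by
  unfold SP SP'
  refine HasDerivAt.fun_sum fun p hp => ?_
  exact ((deriv_pow (hI p hp) u).ofReal_comp.const_mul (b p)).mul_const (χ p ω)

theorem cont_pow {p : ℕ} (hp : p.Prime) : Continuous fun u : ℝ => (p : ℝ) ^ (-u) :=
  continuous_iff_continuousAt.2 fun u => (deriv_pow hp u).continuousAt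

theorem SP'_cont {b : ℕ → ℂ} {I : Finset ℕ} (hI : ∀ p ∈ I, p.Prime) (ω : Ω) :
    Continuous fun u => SP' χ b I u ω := by
  unfold SP'
  refine continuous_finsetSum _ fun p hp => ?_
  exact (continuous_const.mul (Complex.continuous_ofReal.comp
    ((continuous_const.mul (cont_pow (hI p hp))).neg))).mul continuous_const

theorem SP_meas (h : QO μ χ X D) {b : ℕ → ℂ} {I : Finset ℕ} (hI : ∀ p ∈ I, p.Prime) :
    Measurable (Function.uncurry fun ω u => SP χ b I u ω) := by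
  unfold SP Function.uncurry
  refine Finset.measurable_sum _ fun p hp => ?_
  exact (measurable_const.mul ((Complex.continuous_ofReal.measurable.comp
    (cont_pow (hI p hp)).measurable).comp measurable_snd)).mul ((h.meas p).comp measurable_fst)

theorem SP'_meas (h : QO μ χ X D) {b : ℕ → ℂ} {I : Finset ℕ} (hI : ∀ p ∈ I, p.Prime) :
    Measurable (Function.uncurry fun ω u => SP' χ b I u ω) := by
  unfold SP' Function.uncurry
  refine Finset.measurable_sum _ fun p hp => ?_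
  exact (measurable_const.mul ((Complex.continuous_ofReal.measurable.comp
    ((continuous_const.mul (cont_pow (hI p hp))).neg).measurable).comp measurable_snd)).mul
    ((h.meas p).comp measurable_fst)

/-- the majorant -/
noncomputable def GG (χ : ℕ → Ω → ℂ) (b : ℕ → ℂ) (I : Finset ℕ) (k : ℕ) (ω : Ω) : ℝ≥0∞ :=
  ENNReal.ofReal (‖SP χ b I 1 ω‖ ^ (2 * k)) + ENNReal.ofReal (2 * k) *
    ∫⁻ u in Set.Icc (0 : ℝ) 1, (ENNReal.ofReal (‖SP χ b I u ω‖ ^ (2 * k)) +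
      ENNReal.ofReal (‖SP' χ b I u ω‖ ^ (2 * k)))

theorem GG_inner (h : QO μ χ X D) {b : ℕ → ℂ} {I : Finset ℕ} (hI : ∀ p ∈ I, p.Prime) (k : ℕ) :
    Measurable (Function.uncurry fun (ω : Ω) (u : ℝ) =>
      ENNReal.ofReal (‖SP χ b I u ω‖ ^ (2 * k)) + ENNReal.ofReal (‖SP' χ b I u ω‖ ^ (2 * k))) ∧
    Measurable fun ω => ∫⁻ u in Set.Icc (0 : ℝ) 1, (ENNReal.ofReal (‖SP χ b I u ω‖ ^ (2 * k)) +
      ENNReal.ofReal (‖SP' χ b I u ω‖ ^ (2 * k))) := by
  have h1 := SP_meas h hI (b := b)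
  have h2 := SP'_meas h hI (b := b)
  have h3 : Measurable (Function.uncurry fun (ω : Ω) (u : ℝ) =>
      ENNReal.ofReal (‖SP χ b I u ω‖ ^ (2 * k)) + ENNReal.ofReal (‖SP' χ b I u ω‖ ^ (2 * k))) :=
    ((h1.norm.pow_const _).ennreal_ofReal).add ((h2.norm.pow_const _).ennreal_ofReal)
  exact ⟨h3, Measurable.lintegral_prod_right' h3⟩

theorem GG_meas (h : QO μ χ X D) {b : ℕ → ℂ} {I : Finset ℕ} (hI : ∀ p ∈ I, p.Prime) (k : ℕ) :
    Measurable (GG χ b I k) := by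
  have h1 := SP_meas h hI (b := b)
  have h4 : Measurable fun ω => ENNReal.ofReal (‖SP χ b I 1 ω‖ ^ (2 * k)) :=
    (((h1.comp (measurable_id.prodMk measurable_const)).norm).pow_const _).ennreal_ofReal
  exact h4.add ((GG_inner h hI k).2.const_mul _)

theorem le_GG {b : ℕ → ℂ} {I : Finset ℕ} (hI : ∀ p ∈ I, p.Prime) {k : ℕ} (hk : 1 ≤ k) (ω : Ω)
    {x : ℝ} (h0 : 0 ≤ x) (h1 : x ≤ 1) :
    ENNReal.ofReal (‖SP χ b I x ω‖ ^ (2 * k)) ≤ GG χ b I k ω := by
  have hc1 : Continuous fun u => SP χ b I u ω :=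
    continuous_iff_continuousAt.2 fun u => (SP_deriv hI ω u).continuousAt
  have hc2 := SP'_cont hI ω (χ := χ) (b := b)
  have h2 := sup_pow (fun u => SP_deriv hI ω u (χ := χ) (b := b)) hc2 hk h0 h1
  refine (ENNReal.ofReal_le_ofReal h2).trans ?_
  rw [ENNReal.ofReal_add (by positivity) (mul_nonneg (by positivity)
    (intervalIntegral.integral_nonneg (by norm_num) fun u _ => by positivity)),
    ENNReal.ofReal_mul (by positivity)]
  unfold GG
  refine add_le_add_right (mul_le_mul_right (le_of_eq ?_) _) _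
  rw [intervalIntegral.integral_of_le (by norm_num), ← integral_Icc_eq_integral_Ioc,
    ofReal_integral_eq_lintegral_ofReal]
  · refine lintegral_congr fun u => ?_
    rw [ENNReal.ofReal_add (by positivity) (by positivity)]
  · exact ((hc1.norm.pow _).add (hc2.norm.pow _)).continuousOn.integrableOn_Icc
  · exact Filter.Eventually.of_forall fun u => by positivity

theorem sizes {p : ℕ} (hp : p.Prime) {u : ℝ} (hu : 0 ≤ u) :
    (p : ℝ) ^ (-u) ≤ 1 ∧ 0 ≤ (p : ℝ) ^ (-u) ∧ 0 ≤ Real.log p := by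
  have hp1 : (1 : ℝ) ≤ p := by exact_mod_cast hp.one_lt.le
  exact ⟨Real.rpow_le_one_of_one_le_of_nonpos hp1 (by linarith), by positivity, Real.log_nonneg hp1⟩

/-- the mean of the majorant -/
theorem GG_mean [SFinite μ] (h : QO μ χ X D) {b : ℕ → ℂ} {I : Finset ℕ} (hI : ∀ p ∈ I, p.Prime)
    {k : ℕ} (hk : 1 ≤ k) (hX : ∀ p ∈ I, (p : ℝ) ^ k ≤ X) :
    ∫⁻ ω, GG χ b I k ω ∂μ ≤ ENNReal.ofReal (D * (5 * k * (k.factorial *
      (∑ p ∈ I, ‖b p‖ ^ 2 * (1 + Real.log p ^ 2)) ^ k))) := by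
  set V : ℝ := ∑ p ∈ I, ‖b p‖ ^ 2 * (1 + Real.log p ^ 2) with hV
  set M : ℝ := D * (k.factorial * V ^ k) with hM
  have hV0 : 0 ≤ V := Finset.sum_nonneg fun p _ => by positivity
  have hM0 : 0 ≤ M := by have := h.nonneg; positivity
  have b1 : ∀ u : ℝ, 0 ≤ u → ∫⁻ ω, ENNReal.ofReal (‖SP χ b I u ω‖ ^ (2 * k)) ∂μ ≤
      ENNReal.ofReal M := by
    intro u hu
    refine (h.moment I hI k hk hX _).trans (ENNReal.ofReal_le_ofReal ?_)
    refine mul_le_mul_of_nonneg_left (mul_le_mul_of_nonneg_left (pow_le_pow_left₀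
      (Finset.sum_nonneg fun p _ => by positivity) (Finset.sum_le_sum fun p hp => ?_) _)
      (by positivity)) h.nonneg
    obtain ⟨h1, h2, h3⟩ := sizes (hI p hp) hu
    rw [norm_mul, Complex.norm_real, Real.norm_eq_abs, abs_of_nonneg h2, mul_pow]
    refine mul_le_mul_of_nonneg_left ?_ (by positivity)
    have : ((p : ℝ) ^ (-u)) ^ 2 ≤ 1 := pow_le_one₀ h2 h1
    nlinarith [sq_nonneg (Real.log p)]
  have b2 : ∀ u : ℝ, 0 ≤ u → ∫⁻ ω, ENNReal.ofReal (‖SP' χ b I u ω‖ ^ (2 * k)) ∂μ ≤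
      ENNReal.ofReal M := by
    intro u hu
    refine (h.moment I hI k hk hX _).trans (ENNReal.ofReal_le_ofReal ?_)
    refine mul_le_mul_of_nonneg_left (mul_le_mul_of_nonneg_left (pow_le_pow_left₀
      (Finset.sum_nonneg fun p _ => by positivity) (Finset.sum_le_sum fun p hp => ?_) _)
      (by positivity)) h.nonneg
    obtain ⟨h1, h2, h3⟩ := sizes (hI p hp) hu
    rw [norm_mul, Complex.norm_real, Real.norm_eq_abs, abs_neg, abs_of_nonneg (mul_nonneg h3 h2),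
      mul_pow]
    refine mul_le_mul_of_nonneg_left ?_ (by positivity)
    have h4 : Real.log p * (p : ℝ) ^ (-u) ≤ Real.log p := mul_le_of_le_one_right h3 h1
    have := pow_le_pow_left₀ (mul_nonneg h3 h2) h4 2
    linarith
  have hm1 := SP_meas h hI (b := b)
  have hm3 := (GG_inner h hI k (b := b)).1
  have hm6 := (GG_inner h hI k (b := b)).2
  have hm4 : Measurable fun ω => ENNReal.ofReal (‖SP χ b I 1 ω‖ ^ (2 * k)) :=
    (((hm1.comp (measurable_id.prodMk measurable_const)).norm).pow_const _).ennreal_ofReal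
  unfold GG
  rw [lintegral_add_left hm4, lintegral_const_mul _ hm6,
    lintegral_lintegral_swap hm3.aemeasurable]
  have h5 : ∫⁻ u in Set.Icc (0 : ℝ) 1, ∫⁻ ω, (ENNReal.ofReal (‖SP χ b I u ω‖ ^ (2 * k)) +
      ENNReal.ofReal (‖SP' χ b I u ω‖ ^ (2 * k))) ∂μ ≤ ENNReal.ofReal (M + M) := by
    calc _ ≤ ∫⁻ _ in Set.Icc (0 : ℝ) 1, ENNReal.ofReal (M + M) := by
          refine setLIntegral_mono' measurableSet_Icc fun u hu => ?_
          have hm5 : Measurable fun ω => ENNReal.ofReal (‖SP χ b I u ω‖ ^ (2 * k)) :=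
            (((hm1.comp (measurable_id.prodMk measurable_const)).norm).pow_const _).ennreal_ofReal
          rw [lintegral_add_left hm5, ENNReal.ofReal_add hM0 hM0]
          exact add_le_add (b1 u hu.1) (b2 u hu.1)
      _ = _ := by
          rw [setLIntegral_const, Real.volume_Icc]
          simp
  refine (add_le_add (b1 1 zero_le_one) (mul_le_mul_right h5 _)).trans ?_
  rw [← ENNReal.ofReal_mul (by positivity), ← ENNReal.ofReal_add hM0 (by positivity)]
  refine ENNReal.ofReal_le_ofReal ?_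
  have hk1 : (1 : ℝ) ≤ k := by exact_mod_cast hk
  have : M + 2 * k * (M + M) ≤ 5 * k * M := by nlinarith
  refine this.trans (le_of_eq ?_)
  rw [hM]
  ring

/-- **The exceptional set for one range.** -/
theorem one_range [SFinite μ] (h : QO μ χ X D) (b : ℕ → ℂ) {I : Finset ℕ} (hI : ∀ p ∈ I, p.Prime)
    {k : ℕ} (hk : 1 ≤ k) (hX : ∀ p ∈ I, (p : ℝ) ^ k ≤ X) {A : ℝ} (hA : 0 < A) :
    ∃ E : Set Ω, MeasurableSet E ∧ μ E ≤ ENNReal.ofReal (D * (5 * k * (k.factorial *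
      ((∑ p ∈ I, ‖b p‖ ^ 2 * (1 + Real.log p ^ 2)) / A ^ 2) ^ k))) ∧
      ∀ ω, ω ∉ E → ∀ x : ℝ, 0 ≤ x → x ≤ 1 → ‖SP χ b I x ω‖ ≤ A := by
  refine ⟨{ω | ENNReal.ofReal (A ^ (2 * k)) ≤ GG χ b I k ω},
    measurableSet_le measurable_const (GG_meas h hI k), ?_, ?_⟩
  · have hA2 : 0 < A ^ (2 * k) := by positivity
    have h1 := mul_meas_ge_le_lintegral (μ := μ) (GG_meas h hI (b := b) k)
      (ENNReal.ofReal (A ^ (2 * k)))
    have h2 := h1.trans (GG_mean h hI (b := b) hk hX)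
    have h3 : μ {ω | ENNReal.ofReal (A ^ (2 * k)) ≤ GG χ b I k ω} ≤
        ENNReal.ofReal (D * (5 * k * (k.factorial *
          (∑ p ∈ I, ‖b p‖ ^ 2 * (1 + Real.log p ^ 2)) ^ k))) / ENNReal.ofReal (A ^ (2 * k)) := by
      rw [ENNReal.le_div_iff_mul_le (Or.inl (ENNReal.ofReal_pos.2 hA2).ne')
        (Or.inl ENNReal.ofReal_ne_top), mul_comm]
      exact h2
    refine h3.trans (le_of_eq ?_)
    rw [← ENNReal.ofReal_div_of_pos hA2]
    congr 1
    rw [div_pow, ← pow_mul]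
    ring
  · intro ω hω x h0 h1
    have hω' : ¬ (ENNReal.ofReal (A ^ (2 * k)) ≤ GG χ b I k ω) := hω
    replace hω := not_le.1 hω'
    have h2 := (le_GG hI hk ω h0 h1 (χ := χ) (b := b)).trans_lt hω
    have h3 := (ENNReal.ofReal_lt_ofReal_iff (by positivity)).1 h2
    by_contra h4
    exact absurd h3 (not_lt.2 (pow_le_pow_left₀ hA.le (not_le.1 h4).le _))

end

end Pool.Agent.X280.HY
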